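import Pool.Agent.N112.WM.Stm
import Pool.Agent.N149.Tow.Lay

/-!
# Project WM, second part: the weak theorem modulo the elements of order prime to `m`
-/

set_option autoImplicit false

namespace Pool.Agent.N112.WM

open Finset
open scoped Pointwise

universe u

/-- WM6: the pair of subgroups, entropic form, modulus `m`. -/
def StmPairM : Prop := ∀ (Ω : Type u) [Fintype Ω] (G : Type u) [AddCommGroup G] (w : Ω → ℝ)
  (X : Ω → G) (m : ℕ), H137.PFR.Law w → 2 ≤ m →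
  ∃ M P : AddSubgroup G, P ≤ M ∧ M.FG ∧ Finite P ∧ (∀ x ∈ P, ∃ k : ℕ, (m ^ k) • x = 0) ∧
    H137.Weak.hh w X M ≤ 2 * N149.Tow.cc m * H137.Weak.kap w X ∧
    Real.log (Nat.card P) + H137.Weak.hh w X P ≤
      H137.Weak.Hg w X + 2 * N149.Tow.cc m * H137.Weak.kap w X ∧
    (P ⊔ M.map (nsmulAddMonoidHom (α := G) m)).relIndex M ≠ 0 ∧
    Real.log ((P ⊔ M.map (nsmulAddMonoidHom (α := G) m)).relIndex M) ≤
      2 * N149.Tow.cc m * H137.Weak.kap w X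

/-- WM7: generators modulo the elements of order prime to `m`. -/
def StmRankM : Prop := ∀ (Q : Type u) [AddCommGroup Q] [AddGroup.FG Q] (m : ℕ), 2 ≤ m →
  (nsmulAddMonoidHom (α := Q) m).range.index ≠ 0 →
  ∃ S : Finset Q, 2 ^ S.card ≤ (nsmulAddMonoidHom (α := Q) m).range.index ∧
    ∀ x : Q, ∃ k : ℕ, Nat.Coprime k m ∧ ∃ y ∈ AddSubgroup.closure (S : Set Q), k • (x - y) = 0

/-- WM8: the weak theorem modulo the elements of order prime to `m`. -/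
def StmWeakM : Prop := ∀ m : ℕ, 2 ≤ m → ∃ c : ℕ, ∀ (Γ : Type u) [AddCommGroup Γ] [DecidableEq Γ]
  (K : ℝ) (A : Finset Γ), A.Nonempty → ((A + A).card : ℝ) ≤ K * A.card →
  ∃ (P : AddSubgroup Γ) (S T : Finset Γ), Finite P ∧
    (((A : Set Γ) + (P : Set Γ)).ncard : ℝ) ≤ (2 * K) ^ c * A.card ∧
    (S.card : ℝ) ≤ c * Real.log (2 * K) ∧ (T.card : ℝ) ≤ (2 * K) ^ c ∧
    ∀ a ∈ A, ∃ t ∈ T, ∃ o : Γ, (∃ k : ℕ, Nat.Coprime k m ∧ k • o = 0) ∧
      a - t - o ∈ P ⊔ AddSubgroup.closure (S : Set Γ)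

end Pool.Agent.N112.WM
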