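import Pool.Agent.N112.WM.CoreW

/-!
# From finite groups to all groups, modulo the torsion at small primes
-/

set_option autoImplicit false

namespace Pool.Agent.N112.WM

open Finset Pool.Agent.Y806.DF Pool.Agent.R92.Star Pool.Agent.R424.EX Pool.Agent.N112.PR
open scoped Pointwise

universe u

/-- The weak form passes to all groups. -/
theorem all_w (hWM : StmWeakM.{u}) (q : ℕ) (hq : 2 ≤ q) : ∃ e : ℕ, ∀ n : ℕ, ∃ m : ℕ,
    ∀ (K : ℝ) (p₀ : ℕ),
    (∀ (G : Type u) [AddCommGroup G] [DecidableEq G] [Finite G],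
      ∀ Y : Finset G, Y.Nonempty → ((Y + Y).card : ℝ) ≤ ((2 * K) ^ e) ^ 3 * Y.card →
      WeakMod n (((2 * K) ^ e) ^ 3) (pPart (fun p => p < p₀) G) Y) →
    ∀ (Γ : Type u) [AddCommGroup Γ] [DecidableEq Γ],
      ∀ A : Finset Γ, A.Nonempty → ((A + A).card : ℝ) ≤ K * A.card →
        WeakMod m K (pPart (fun p => ¬ p ∣ q ∧ p < p₀) Γ) A := by
  classical
  obtain ⟨c, hc⟩ := hWM q hq
  obtain ⟨e, he⟩ : ∃ e : ℕ, e = 2 * c + 3 := ⟨_, rfl⟩
  refine ⟨e, ?_⟩
  intro n
  obtain ⟨m, hm⟩ : ∃ m : ℕ, m = (n + 1) ^ 2 * 2 ^ (e * (6 * n + 3) + c) +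
    (e * (6 * n + 3) + c) + ((3 * e + 1) * n + c) := ⟨_, rfl⟩
  refine ⟨m, ?_⟩
  intro K p₀ hfin Γ _ _ A hA hK
  have hK1 := one_le_K hA hK
  have hK0 : 0 < K := by linarith
  obtain ⟨P, S, T, hP, hAP, hS, hT, hcov⟩ := hc Γ K A hA hK
  obtain ⟨ψ₀, hψ₀⟩ := gen_hom S
  have hd := hS
  set π := QuotientAddGroup.mk' P with hπ
  have hker : ∀ x, π x = 0 ↔ x ∈ P := fun x => QuotientAddGroup.eq_zero_iff x
  have hsurj : Function.Surjective π := QuotientAddGroup.mk'_surjective P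
  obtain ⟨L, hL⟩ : ∃ L : ℝ, L = (2 * K) ^ e := ⟨_, rfl⟩
  have h2K : 1 ≤ 2 * K := by linarith
  have hKL : ∀ j, j ≤ e → (2 * K) ^ j ≤ L := by
    intro j hj
    rw [hL]
    exact pow_le_pow_right₀ h2K hj
  have hL1 : 1 ≤ L := by rw [hL]; exact one_le_pow₀ h2K
  have hAL : ((A.image π + A.image π).card : ℝ) ≤ L * (A.image π).card :=
    (image_doubling π hA hK).trans
      (mul_le_mul_of_nonneg_right ((pow_le_pow_left₀ hK0.le (by linarith) 3).trans
        (hKL 3 (by omega))) (Nat.cast_nonneg _))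
  obtain ⟨H₁, S₁, T₁, hH₁, hAH₁, hS₁, hT₁, hcov₁⟩ := core_w (n := n) (p₀ := p₀) hq (by rw [hL]; exact hfin) hL1 (hA.image π) hAL
    ((copPart q Γ).map π) (by
      rintro _ ⟨x, ⟨k, hk, hx'⟩, rfl⟩
      exact ⟨k, hk, by rw [← map_nsmul, hx', map_zero]⟩) (π.comp ψ₀)
    ((five_pow hK1 hd).trans (hKL _ (by omega))) (T.image π)
    ((by exact_mod_cast Finset.card_image_le : ((T.image π).card : ℝ) ≤ T.card).trans
      (hT.trans (hKL c (by omega)))) (by
      intro x hx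
      obtain ⟨a, ha, rfl⟩ := Finset.mem_image.1 hx
      obtain ⟨t, ht, o, ho, h⟩ := hcov a ha
      obtain ⟨p, hp, s, hs, e⟩ := AddSubgroup.mem_sup.1 h
      obtain ⟨y, rfl⟩ := hψ₀ hs
      refine ⟨π t, Finset.mem_image_of_mem _ ht, y, o, ho, ?_⟩
      have e1 : a = t + o + p + ψ₀ y := by
        have := e
        have e2 : a = t + o + (a - t - o) := by abel
        rw [e2, ← e]
        abel
      show π o = π a - π t - π (ψ₀ y)
      rw [e1, map_add, map_add, map_add, (hker p).2 hp]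
      abel)
  choose σ hσ using hsurj
  obtain ⟨H, hH⟩ : ∃ H : AddSubgroup Γ, H = H₁.comap π := ⟨_, rfl⟩
  have hmemH : ∀ x, x ∈ H ↔ π x ∈ H₁ := by
    intro x
    rw [hH]
    exact Iff.rfl
  have hPH : P ≤ H := by
    intro x hx
    rw [hmemH, (hker x).2 hx]
    exact H₁.zero_mem
  have hHfin : Finite H := by
    have h1 : ((((fs H₁).image σ + fs P : Finset Γ) : Set Γ)).Finite := Finset.finite_toSet _
    refine (h1.subset ?_).to_subtype
    intro x hx
    refine Finset.mem_coe.2 (Finset.mem_add.2 ⟨σ (π x), Finset.mem_image_of_mem _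
      ((mem_fs H₁ _).2 ((hmemH x).1 hx)), x - σ (π x), (mem_fs P _).2 ?_, by abel⟩)
    rw [← hker, map_sub, hσ, sub_self]
  have hsizes : (((A : Set Γ) + (H : Set Γ)).ncard : ℝ) ≤
      n ^ 2 * L ^ (6 * n + 3) * ((2 * K) ^ c * A.card) := by
    have h1 : ((A : Set Γ) + (H : Set Γ)) + (P : Set Γ) = (A : Set Γ) + (H : Set Γ) := by
      rw [add_assoc]
      congr 1
      ext x
      constructor
      · rintro ⟨h, hh, p, hp, rfl⟩
        exact H.add_mem hh (hPH hp)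
      · intro hx
        exact ⟨x, hx, 0, P.zero_mem, add_zero x⟩
    have h2 : π '' ((A : Set Γ) + (H : Set Γ)) = ((A.image π : Finset _) : Set _) + (H₁ : Set _) := by
      ext x
      constructor
      · rintro ⟨_, ⟨a, ha, h, hh, rfl⟩, rfl⟩
        exact ⟨π a, Finset.mem_coe.2 (Finset.mem_image_of_mem _ (Finset.mem_coe.1 ha)), π h,
          (hmemH h).1 hh, (map_add π a h).symm⟩
      · rintro ⟨y, hy, h, hh, rfl⟩
        obtain ⟨a, ha, rfl⟩ := Finset.mem_image.1 (Finset.mem_coe.1 hy)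
        refine ⟨a + σ h, ⟨a, Finset.mem_coe.2 ha, σ h, (hmemH _).2 (by rw [hσ]; exact hh), rfl⟩, ?_⟩
        rw [map_add, hσ]
    have h3 := ncard_cosets P ((A : Set Γ) + (H : Set Γ))
    rw [h1, ← hπ, h2] at h3
    have h4 := ncard_cosets P (A : Set Γ)
    have h5 : (QuotientAddGroup.mk' P '' (A : Set Γ)).ncard = (A.image π).card := by
      rw [← hπ, ← Set.ncard_coe_finset, Finset.coe_image]
    rw [h5] at h4
    rw [h3, Nat.cast_mul]
    calc (Nat.card P : ℝ) * ((((A.image π : Finset (Γ ⧸ P)) : Set (Γ ⧸ P)) +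
          (H₁ : Set (Γ ⧸ P))).ncard : ℝ)
        ≤ (Nat.card P : ℝ) * (n ^ 2 * L ^ (6 * n + 3) * (A.image π).card) :=
          mul_le_mul_of_nonneg_left hAH₁ (Nat.cast_nonneg _)
      _ = n ^ 2 * L ^ (6 * n + 3) * ((Nat.card P * (A.image π).card : ℕ) : ℝ) := by
          push_cast
          ring
      _ = n ^ 2 * L ^ (6 * n + 3) * (((A : Set Γ) + (P : Set Γ)).ncard : ℝ) := by rw [h4]
      _ ≤ _ := mul_le_mul_of_nonneg_left hAP (by positivity)
  refine ⟨H, S₁.image σ, T₁.image σ, hHfin, ?_, ?_, ?_, ?_⟩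
  · refine hsizes.trans ?_
    have e1 : (n : ℝ) ^ 2 * L ^ (6 * n + 3) * ((2 * K) ^ c * A.card) =
        (((n ^ 2 * 2 ^ (e * (6 * n + 3) + c) : ℕ) : ℝ) * K ^ (e * (6 * n + 3) + c)) *
          A.card := by
      rw [hL, ← pow_mul]
      push_cast
      rw [pow_add 2, pow_add K, mul_pow, mul_pow]
      ring
    have hn2 : n ^ 2 * 2 ^ (e * (6 * n + 3) + c) ≤ m := by
      have h5 : n ^ 2 * 2 ^ (e * (6 * n + 3) + c) ≤ (n + 1) ^ 2 * 2 ^ (e * (6 * n + 3) + c) :=
        Nat.mul_le_mul_right _ (Nat.pow_le_pow_left (Nat.le_succ n) 2)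
      rw [hm, add_assoc]
      exact h5.trans (Nat.le_add_right _ _)
    have hn3 : e * (6 * n + 3) + c ≤ m := by
      rw [hm]
      exact le_trans (Nat.le_add_left _ _) (Nat.le_add_right _ _)
    rw [e1]
    exact mul_le_mul_of_nonneg_right (poly_le hn2 hn3 hK1) (Nat.cast_nonneg _)
  · have h1 : ((S₁.image σ).card : ℝ) ≤ S₁.card := by exact_mod_cast Finset.card_image_le
    refine h1.trans (hS₁.trans ?_)
    have hlog0 : 0 ≤ Real.log (2 * K) := Real.log_nonneg h2K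
    have e1 : Real.log (2 * L ^ 3) ≤ (3 * e + 1 : ℕ) * Real.log (2 * K) := by
      rw [hL, ← pow_mul]
      have h2 : 2 * (2 * K) ^ (e * 3) ≤ (2 * K) ^ (3 * e + 1) := by
        have h3 : (2 * K) ^ (3 * e + 1) = (2 * K) * (2 * K) ^ (e * 3) := by
          rw [← pow_succ', mul_comm e 3]
        rw [h3]
        exact mul_le_mul_of_nonneg_right (by linarith) (by positivity)
      calc Real.log (2 * (2 * K) ^ (e * 3)) ≤ Real.log ((2 * K) ^ (3 * e + 1)) :=
            Real.log_le_log (by positivity) h2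
        _ = _ := by rw [Real.log_pow]
    have hn4 : (3 * e + 1) * n + c ≤ m := by
      rw [hm]
      exact Nat.le_add_left _ _
    calc (n : ℝ) * Real.log (2 * L ^ 3) + (S.card : ℝ)
        ≤ n * ((3 * e + 1 : ℕ) * Real.log (2 * K)) + (c : ℝ) * Real.log (2 * K) :=
          add_le_add (mul_le_mul_of_nonneg_left e1 (Nat.cast_nonneg _)) hd
      _ = (((3 * e + 1) * n + c : ℕ) : ℝ) * Real.log (2 * K) := by push_cast; ring
      _ ≤ m * Real.log (2 * K) := by
        refine mul_le_mul_of_nonneg_right ?_ hlog0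
        exact_mod_cast hn4
  · have h1 : ((T₁.image σ).card : ℝ) ≤ T₁.card := by exact_mod_cast Finset.card_image_le
    refine h1.trans (hT₁.trans ?_)
    have e1 : (n : ℝ) * L ^ (3 * n + 3) =
        ((n * 2 ^ (e * (3 * n + 3)) : ℕ) : ℝ) * K ^ (e * (3 * n + 3)) := by
      rw [hL, ← pow_mul, mul_pow]
      push_cast
      ring
    rw [e1]
    have h0 : e * (3 * n + 3) ≤ e * (6 * n + 3) + c :=
      (Nat.mul_le_mul_left e (by omega)).trans (Nat.le_add_right _ _)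
    refine poly_le ?_ ?_ hK1
    · have h2 : n ≤ (n + 1) ^ 2 := by nlinarith [Nat.zero_le n]
      have h4 : n * 2 ^ (e * (3 * n + 3)) ≤ (n + 1) ^ 2 * 2 ^ (e * (6 * n + 3) + c) :=
        Nat.mul_le_mul h2 (Nat.pow_le_pow_right (by norm_num) h0)
      rw [hm, add_assoc]
      exact h4.trans (Nat.le_add_right _ _)
    · rw [hm]
      exact h0.trans (le_trans (Nat.le_add_left _ _) (Nat.le_add_right _ _))
  · intro a ha
    obtain ⟨t, ht, h⟩ := hcov₁ (π a) (Finset.mem_image_of_mem _ ha)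
    obtain ⟨y, hy, w₁, hw₁, e₁⟩ := AddSubgroup.mem_sup.1 h
    obtain ⟨o, ho, hwo⟩ := lift_pPart _ P (σ w₁) (by rw [← hπ, hσ]; exact hw₁)
    have hπo : π o = w₁ := by
      have h6 := (hker _).2 hwo
      rw [map_sub, hσ, sub_eq_zero] at h6
      exact h6.symm
    refine ⟨σ t, Finset.mem_image_of_mem _ ht, o, ho, ?_⟩
    obtain ⟨h₁, hh₁, s, hs, e⟩ := AddSubgroup.mem_sup.1 hy
    have hcl : AddSubgroup.closure (S₁ : Set (Γ ⧸ P)) =
        (AddSubgroup.closure ((S₁.image σ : Finset Γ) : Set Γ)).map π := by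
      rw [AddMonoidHom.map_closure, Finset.coe_image, Set.image_image]
      simp only [hσ, Set.image_id']
    rw [hcl] at hs
    obtain ⟨w, hw, rfl⟩ := hs
    refine AddSubgroup.mem_sup.2 ⟨a - σ t - o - w, ?_, w, hw, by abel⟩
    have e6 : π a - t - w₁ = y := by rw [← e₁]; abel
    rw [hmemH, map_sub, map_sub, map_sub, hσ, hπo, e6, ← e, add_sub_cancel_right]
    exact hh₁


end Pool.Agent.N112.WM
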