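import Pool.Agent.N112.WM.Q1At
import Pool.Agent.N112.WM.AllW
import Pool.Agent.N112.PR.Main

/-!
# Sets of small doubling in groups without torsion in a window
-/

set_option autoImplicit false

namespace Pool.Agent.N112.WM

open Finset Pool.Agent.Y806.DF Pool.Agent.R92.Star Pool.Agent.R424.EX Pool.Agent.N112.PR
open scoped Pointwise

universe u

/-- all groups modulo the torsion at the primes below `p₀`, `log p₀ ≥ (log 2K) ^ η / c` -/
theorem fin_w (hW : StmWeakW.{u}) {η c : ℝ} (hη0 : 0 < η) (hη1 : η ≤ 1) (e : ℕ) :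
    ∃ n : ℕ, ∀ (K : ℝ) (p₀ : ℕ), 1 ≤ K → 2 ≤ p₀ →
      Real.log (2 * K) ^ η ≤ c * Real.log p₀ →
      ∀ (G : Type u) [AddCommGroup G] [DecidableEq G],
        ∀ Y : Finset G, Y.Nonempty → ((Y + Y).card : ℝ) ≤ ((2 * K) ^ e) ^ 3 * Y.card →
        WeakMod n (((2 * K) ^ e) ^ 3) (pPart (fun p => p < p₀) G) Y := by
  classical
  obtain ⟨b, hb1, hb⟩ : ∃ b : ℝ, 1 ≤ b ∧ b = (3 * e + 1 : ℕ) :=
    ⟨(3 * e + 1 : ℕ), by exact_mod_cast Nat.le_add_left 1 _, rfl⟩
  obtain ⟨m, hm⟩ := exists_nat_ge ((10 : ℝ) ^ 11 / η)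
  obtain ⟨a, ha⟩ := exists_nat_ge (1 + b * c)
  obtain ⟨n, hn⟩ : ∃ n : ℕ, n = 2 ^ m + a * m + m := ⟨_, rfl⟩
  refine ⟨n, ?_⟩
  intro K p₀ hK1 hp₀ hlog G _ _ Y hY hYY
  obtain ⟨K', hK'⟩ : ∃ K' : ℝ, K' = ((2 * K) ^ e) ^ 3 := ⟨_, rfl⟩
  rw [← hK'] at hYY ⊢
  have h2K : 1 ≤ 2 * K := by linarith
  have hK'1 : 1 ≤ K' := by rw [hK']; exact one_le_pow₀ (one_le_pow₀ h2K)
  obtain ⟨H, S, T, hH, hYH, hS, hT, hcov⟩ := hW G K' Y η p₀ hY hYY hη0 hη1 hp₀
  have hκ0 : 0 ≤ Real.log (2 * K) := Real.log_nonneg h2K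
  have hlogK' : Real.log (2 * K') ≤ b * Real.log (2 * K) := by
    rw [hK', ← pow_mul, hb]
    have h2 : 2 * (2 * K) ^ (e * 3) ≤ (2 * K) ^ (3 * e + 1) := by
      have h3 : (2 * K) ^ (3 * e + 1) = (2 * K) * (2 * K) ^ (e * 3) := by
        rw [← pow_succ', mul_comm e 3]
      rw [h3]
      exact mul_le_mul_of_nonneg_right (by linarith) (by positivity)
    calc Real.log (2 * (2 * K) ^ (e * 3)) ≤ Real.log ((2 * K) ^ (3 * e + 1)) :=
          Real.log_le_log (by positivity) h2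
      _ = _ := by rw [Real.log_pow]
  have hlogK'0 : 0 < Real.log (2 * K') := Real.log_pos (by linarith)
  have hlogp : 0 < Real.log p₀ := Real.log_pos (by exact_mod_cast (by omega : 1 < p₀))
  have hpow : Real.log (2 * K') ^ (1 + η) ≤ b * c * Real.log (2 * K') * Real.log p₀ := by
    rw [Real.rpow_add hlogK'0, Real.rpow_one]
    have h1 : Real.log (2 * K') ^ η ≤ b * Real.log (2 * K) ^ η := by
      calc Real.log (2 * K') ^ η ≤ (b * Real.log (2 * K)) ^ η :=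
            Real.rpow_le_rpow hlogK'0.le hlogK' hη0.le
        _ = b ^ η * Real.log (2 * K) ^ η := Real.mul_rpow (by linarith) hκ0
        _ ≤ b * Real.log (2 * K) ^ η := by
          refine mul_le_mul_of_nonneg_right ?_ (Real.rpow_nonneg hκ0 _)
          calc b ^ η ≤ b ^ (1 : ℝ) := Real.rpow_le_rpow_of_exponent_le hb1 hη1
            _ = b := Real.rpow_one _
    calc Real.log (2 * K') * Real.log (2 * K') ^ η
        ≤ Real.log (2 * K') * (b * (c * Real.log p₀)) := by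
          refine mul_le_mul_of_nonneg_left (h1.trans ?_) hlogK'0.le
          exact mul_le_mul_of_nonneg_left hlog (by linarith)
      _ = _ := by ring
  have hn1 : (2 : ℝ) ^ m ≤ n := by
    rw [hn]
    push_cast
    have h1 : (0 : ℝ) ≤ (a : ℝ) * m := by positivity
    have h2 : (0 : ℝ) ≤ m := Nat.cast_nonneg _
    linarith
  have hmn : m ≤ n := by rw [hn]; exact Nat.le_add_left _ _
  have hamn : a * m ≤ n := by
    rw [hn]
    exact le_trans (Nat.le_add_left _ _) (Nat.le_add_right _ _)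
  have hpoly : ∀ x : ℝ, x ≤ m → (2 * K') ^ x ≤ n * K' ^ n := by
    intro x hx
    calc (2 * K') ^ x ≤ (2 * K') ^ (m : ℝ) :=
          Real.rpow_le_rpow_of_exponent_le (by linarith) hx
      _ = 2 ^ m * K' ^ m := by rw [Real.rpow_natCast, mul_pow]
      _ ≤ n * K' ^ n := mul_le_mul hn1 (pow_le_pow_right₀ hK'1 hmn) (by positivity)
          (Nat.cast_nonneg _)
  refine ⟨H, S, T, hH, ?_, ?_, ?_, hcov⟩
  · exact hYH.trans (mul_le_mul_of_nonneg_right (hpoly _ hm) (Nat.cast_nonneg _))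
  · refine hS.trans ?_
    have h1 : Real.log (2 * K') ^ (1 + η) / Real.log p₀ ≤ b * c * Real.log (2 * K') := by
      rw [div_le_iff₀ hlogp]
      exact hpow
    calc 10 ^ 11 / η * (Real.log (2 * K') + Real.log (2 * K') ^ (1 + η) / Real.log p₀)
        ≤ 10 ^ 11 / η * (Real.log (2 * K') + b * c * Real.log (2 * K')) := by
          refine mul_le_mul_of_nonneg_left (by linarith) (by positivity)
      _ = (1 + b * c) * (10 ^ 11 / η) * Real.log (2 * K') := by ring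
      _ ≤ a * m * Real.log (2 * K') := by
          refine mul_le_mul_of_nonneg_right ?_ hlogK'0.le
          exact mul_le_mul ha hm (by positivity) (Nat.cast_nonneg _)
      _ ≤ n * Real.log (2 * K') := by
          refine mul_le_mul_of_nonneg_right ?_ hlogK'0.le
          exact_mod_cast hamn
  · refine hT.trans (hpoly _ (le_trans ?_ hm))
    exact div_le_div_of_nonneg_right (by norm_num) hη0.le

/-- **The weak form in all groups, modulo the torsion at the primes of a window.** -/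
theorem weak_mod (hW : StmWeakW.{u}) (hWM : StmWeakM.{u}) (q : ℕ) (hq : 2 ≤ q) {η c : ℝ}
    (hη0 : 0 < η) (hη1 : η ≤ 1) (hc : 0 < c) :
    ∃ n : ℕ, ∀ (Γ : Type u) [AddCommGroup Γ] [DecidableEq Γ] (K : ℝ) (A : Finset Γ), A.Nonempty →
      ((A + A).card : ℝ) ≤ K * A.card →
      WeakMod n K (pPart (fun p => ¬ p ∣ q ∧ c * Real.log p < Real.log (2 * K) ^ η) Γ) A := by
  classical
  obtain ⟨e, he⟩ := all_w hWM q hq
  obtain ⟨n, hn⟩ := fin_w hW (c := c) hη0 hη1 e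
  obtain ⟨m, hm⟩ := he n
  refine ⟨m, ?_⟩
  intro Γ _ _ K A hA hK
  have hK1 := one_le_K hA hK
  have hκ0 : 0 < Real.log (2 * K) := Real.log_pos (by linarith)
  have hκη : 0 < Real.log (2 * K) ^ η / c := div_pos (Real.rpow_pos_of_pos hκ0 _) hc
  obtain ⟨p₀, hp₀⟩ : ∃ p₀ : ℕ, p₀ = ⌈Real.exp (Real.log (2 * K) ^ η / c)⌉₊ := ⟨_, rfl⟩
  have hp1 : 2 ≤ p₀ := by
    rw [hp₀, Nat.succ_le_iff, Nat.lt_ceil, Nat.cast_one]
    exact Real.one_lt_exp_iff.2 hκη
  have hp2 : Real.exp (Real.log (2 * K) ^ η / c) ≤ p₀ := by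
    rw [hp₀]
    exact Nat.le_ceil _
  have hlogp : Real.log (2 * K) ^ η ≤ c * Real.log p₀ := by
    have h1 : Real.log (2 * K) ^ η / c ≤ Real.log p₀ := by
      rw [Real.le_log_iff_exp_le (by exact_mod_cast (by omega : 0 < p₀))]
      exact hp2
    rw [div_le_iff₀ hc] at h1
    linarith
  refine (hm K p₀ (fun G _ _ _ => hn K p₀ hK1 hp1 hlogp G) Γ A hA hK).mono (pPart_mono ?_ Γ)
  rintro p hp ⟨hpq, hlt⟩
  refine ⟨hpq, ?_⟩
  rw [hp₀, Nat.lt_ceil] at hlt
  have h1 : Real.log p < Real.log (2 * K) ^ η / c := by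
    rw [Real.log_lt_iff_lt_exp (by exact_mod_cast hp.pos)]
    exact hlt
  rw [lt_div_iff₀ hc] at h1
  linarith

/-- **The weak form for sets in groups without torsion in a window.** -/
theorem weak_large (hW : StmWeakW.{u}) (hWM : StmWeakM.{u}) (q : ℕ) (hq : 2 ≤ q) {η c : ℝ}
    (hη0 : 0 < η) (hη1 : η ≤ 1) (hc : 0 < c) :
    ∃ n : ℕ, ∀ (Γ : Type u) [AddCommGroup Γ] [DecidableEq Γ] (K : ℝ) (A : Finset Γ), A.Nonempty →
      ((A + A).card : ℝ) ≤ K * A.card →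
      (∀ p : ℕ, p.Prime → ¬ p ∣ q → c * Real.log p < Real.log (2 * K) ^ η →
        ∀ x : Γ, p • x = 0 → x = 0) →
      WeakAt n K A := by
  classical
  obtain ⟨n, hn⟩ := weak_mod hW hWM q hq hη0 hη1 hc
  refine ⟨n, ?_⟩
  intro Γ _ _ K A hA hK htor
  exact (hn Γ K A hA hK).at (pPart_eq_bot fun p hp ⟨h1, h2⟩ => htor p hp h1 h2)

/-- **Q1 for the integers implies Q1 for the sets in groups without torsion in a window.** -/
theorem q1_large (hW : StmWeakW.{u}) (hWM : StmWeakM.{u}) (q : ℕ) (hq : 2 ≤ q) {η c : ℝ}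
    (hη0 : 0 < η) (hη1 : η ≤ 1) (hc : 0 < c) (C : ℝ) :
    ∃ C' : ℝ, Q1For C ℤ →
      ∀ (Γ : Type u) [AddCommGroup Γ] [DecidableEq Γ] (K : ℝ) (A : Finset Γ), A.Nonempty →
      ((A + A).card : ℝ) ≤ K * A.card →
      (∀ p : ℕ, p.Prime → ¬ p ∣ q → c * Real.log p < Real.log (2 * K) ^ η →
        ∀ x : Γ, p • x = 0 → x = 0) →
      Concl C' K A := by
  classical
  obtain ⟨C₁, hC₁⟩ := zd_of_int C
  obtain ⟨n, hn⟩ := weak_large hW hWM q hq hη0 hη1 hc
  obtain ⟨C₂, hC₂⟩ := q1_at.{u} C₁ n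
  refine ⟨C₂, ?_⟩
  intro hZ Γ _ _ K A hA hK htor
  exact hC₂ (hC₁ hZ) Γ K A hA hK (hn Γ K A hA hK htor)

/-- polynomial rectification modulo a finite subgroup, from the weak form -/
theorem rect_at {n : ℕ} {Γ : Type u} [AddCommGroup Γ] [DecidableEq Γ] {K : ℝ} {A : Finset Γ}
    (hA : A.Nonempty) (hW : WeakAt n K A) (s : ℕ) :
    ∃ (H : AddSubgroup Γ) (d : ℕ) (ψ : (Fin d → ℤ) →+ Γ) (g : Γ) (X : Finset (Fin d → ℤ)),
      Finite H ∧ (((A : Set Γ) + (H : Set Γ)).ncard : ℝ) ≤ n * K ^ n * A.card ∧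
      (d : ℝ) ≤ n * Real.log (2 * K) ∧
      (A.card : ℝ) ≤ n * K ^ n * (s + 3) ^ d * (Nat.card H * X.card) ∧
      (∀ x ∈ X, ∃ a ∈ A, a - (g + ψ x) ∈ H) ∧
      ∀ u v : Fin s → (Fin d → ℤ), (∀ i, u i ∈ X) → (∀ i, v i ∈ X) →
        ∑ i, ψ (u i) - ∑ i, ψ (v i) ∈ H → ∑ i, u i = ∑ i, v i := by
  classical
  obtain ⟨H, S, T, hH, hAH, hS, hT, hcov⟩ := hW
  obtain ⟨ψ₀, hψ₀⟩ := gen_hom S
  set π := QuotientAddGroup.mk' H with hπ
  have hker : ∀ x, π x = 0 ↔ x ∈ H := fun x => QuotientAddGroup.eq_zero_iff x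
  obtain ⟨t, ht, ht2⟩ := pigeon T A A hA
    (fun t a => a - t ∈ H ⊔ AddSubgroup.closure (S : Set Γ)) subset_rfl hcov
  set A' := A.filter (fun a => a - t ∈ H ⊔ AddSubgroup.closure (S : Set Γ)) with hA'
  have hA'ne : A'.Nonempty := by
    rw [← Finset.card_pos]
    by_contra hcon
    have h0 : A'.card = 0 := by omega
    rw [h0, mul_zero] at ht2
    have := hA.card_pos
    omega
  obtain ⟨X, -, hXcard, hX, hF⟩ := rect3 (π.comp ψ₀) (π t) (A'.image π)
    (hA'ne.image _) (by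
      intro x hx
      obtain ⟨a, ha, rfl⟩ := Finset.mem_image.1 hx
      obtain ⟨p, hp, w, hw, e⟩ := AddSubgroup.mem_sup.1 (Finset.mem_filter.1 ha).2
      obtain ⟨y, rfl⟩ := hψ₀ hw
      refine ⟨y, ?_⟩
      have e1 : a = t + p + ψ₀ y := by
        have e2 : a = t + (a - t) := by abel
        rw [e2, ← e]
        abel
      show π a = π t + π (ψ₀ y)
      rw [e1, map_add, map_add, (hker p).2 hp, add_zero]) s
  refine ⟨H, S.card, ψ₀, t, X, hH, hAH, hS, ?_, ?_, ?_⟩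
  · have h1 : A'.card ≤ Nat.card H * (A'.image π).card := by
      have h2 := ncard_cosets H (A' : Set Γ)
      rw [← hπ, ← Finset.coe_image, Set.ncard_coe_finset, ncard_add_fs] at h2
      rw [← h2]
      exact Finset.card_le_card_add_right (fs_ne H)
    have h3 : A.card ≤ T.card * (Nat.card H * ((s + 3) ^ S.card * X.card)) :=
      ht2.trans (Nat.mul_le_mul_left _ (h1.trans (Nat.mul_le_mul_left _ hXcard)))
    calc (A.card : ℝ) ≤ ((T.card * (Nat.card H * ((s + 3) ^ S.card * X.card)) : ℕ) : ℝ) := by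
          exact_mod_cast h3
      _ = (T.card : ℝ) * ((s + 3) ^ S.card * (Nat.card H * X.card)) := by
        push_cast
        ring
      _ ≤ (n * K ^ n) * ((s + 3) ^ S.card * (Nat.card H * X.card)) :=
        mul_le_mul_of_nonneg_right hT (by positivity)
      _ = _ := by ring
  · intro x hx
    obtain ⟨a, ha, e⟩ := Finset.mem_image.1 (hX x hx)
    refine ⟨a, (Finset.mem_filter.1 ha).1, ?_⟩
    rw [← hker, map_sub, map_add, e]
    exact sub_self _
  · intro u v hu hv e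
    refine hF u v hu hv ?_
    have h1 : π (∑ i, ψ₀ (u i) - ∑ i, ψ₀ (v i)) = 0 := (hker _).2 e
    rw [map_sub, map_sum, map_sum, sub_eq_zero] at h1
    exact h1

end Pool.Agent.N112.WM
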