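import Pool.Agent.N112.WM.CoreE
import Pool.Agent.N112.WM.Large

/-!
# The window equivalence
-/

set_option autoImplicit false

namespace Pool.Agent.N112.WM

open Finset Pool.Agent.Y806.DF Pool.Agent.R92.Star Pool.Agent.R424.EX Pool.Agent.N112.PR
open scoped Pointwise

universe u

/-- pulling back a structure from the quotient by a finite subgroup -/
theorem pull {Γ : Type*} [AddCommGroup Γ] [DecidableEq Γ] (R : AddSubgroup Γ) [Finite R]
    [DecidableEq (Γ ⧸ R)] {A : Finset Γ} {α : ℝ} (H₁ : AddSubgroup (Γ ⧸ R)) [Finite H₁]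
    (S₁ T₁ : Finset (Γ ⧸ R))
    (hAH₁ : ((((A.image (QuotientAddGroup.mk' R) : Finset (Γ ⧸ R)) : Set (Γ ⧸ R)) +
      (H₁ : Set (Γ ⧸ R))).ncard : ℝ) ≤ α * (A.image (QuotientAddGroup.mk' R)).card)
    (hcov₁ : ∀ x ∈ A.image (QuotientAddGroup.mk' R), ∃ t ∈ T₁,
      x - t ∈ H₁ ⊔ AddSubgroup.closure (S₁ : Set (Γ ⧸ R))) :
    ∃ (H : AddSubgroup Γ) (S T : Finset Γ), Finite H ∧
      (((A : Set Γ) + (H : Set Γ)).ncard : ℝ) ≤ α * (((A : Set Γ) + (R : Set Γ)).ncard : ℝ) ∧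
      S.card ≤ S₁.card ∧ T.card ≤ T₁.card ∧
      ∀ a ∈ A, ∃ t ∈ T, a - t ∈ H ⊔ AddSubgroup.closure (S : Set Γ) := by
  classical
  set π := QuotientAddGroup.mk' R with hπ
  have hker : ∀ x, π x = 0 ↔ x ∈ R := fun x => QuotientAddGroup.eq_zero_iff x
  have hsurj : Function.Surjective π := QuotientAddGroup.mk'_surjective R
  choose σ hσ using hsurj
  obtain ⟨H, hH⟩ : ∃ H : AddSubgroup Γ, H = H₁.comap π := ⟨_, rfl⟩
  have hmemH : ∀ x, x ∈ H ↔ π x ∈ H₁ := by
    intro x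
    rw [hH]
    exact Iff.rfl
  have hPH : R ≤ H := by
    intro x hx
    rw [hmemH, (hker x).2 hx]
    exact H₁.zero_mem
  have hHfin : Finite H := by
    have h1 : ((((fs H₁).image σ + fs R : Finset Γ) : Set Γ)).Finite := Finset.finite_toSet _
    refine (h1.subset ?_).to_subtype
    intro x hx
    refine Finset.mem_coe.2 (Finset.mem_add.2 ⟨σ (π x), Finset.mem_image_of_mem _
      ((mem_fs H₁ _).2 ((hmemH x).1 hx)), x - σ (π x), (mem_fs R _).2 ?_, by abel⟩)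
    rw [← hker, map_sub, hσ, sub_self]
  refine ⟨H, S₁.image σ, T₁.image σ, hHfin, ?_, Finset.card_image_le, Finset.card_image_le, ?_⟩
  · have h1 : ((A : Set Γ) + (H : Set Γ)) + (R : Set Γ) = (A : Set Γ) + (H : Set Γ) := by
      rw [add_assoc]
      congr 1
      ext x
      constructor
      · rintro ⟨h, hh, p, hp, rfl⟩
        exact H.add_mem hh (hPH hp)
      · intro hx
        exact ⟨x, hx, 0, R.zero_mem, add_zero x⟩
    have h2 : π '' ((A : Set Γ) + (H : Set Γ)) = ((A.image π : Finset _) : Set _) + (H₁ : Set _) := by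
      ext x
      constructor
      · rintro ⟨_, ⟨a, ha, h, hh, rfl⟩, rfl⟩
        exact ⟨π a, Finset.mem_coe.2 (Finset.mem_image_of_mem _ (Finset.mem_coe.1 ha)), π h,
          (hmemH h).1 hh, (map_add π a h).symm⟩
      · rintro ⟨y, hy, h, hh, rfl⟩
        obtain ⟨a, ha, rfl⟩ := Finset.mem_image.1 (Finset.mem_coe.1 hy)
        refine ⟨a + σ h, ⟨a, Finset.mem_coe.2 ha, σ h, (hmemH _).2 (by rw [hσ]; exact hh), rfl⟩, ?_⟩
        rw [map_add, hσ]
    have h3 := ncard_cosets R ((A : Set Γ) + (H : Set Γ))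
    rw [h1, ← hπ, h2] at h3
    have h4 := ncard_cosets R (A : Set Γ)
    have h5 : (QuotientAddGroup.mk' R '' (A : Set Γ)).ncard = (A.image π).card := by
      rw [← hπ, ← Set.ncard_coe_finset, Finset.coe_image]
    rw [h5] at h4
    rw [h3, Nat.cast_mul]
    calc (Nat.card R : ℝ) * ((((A.image π : Finset (Γ ⧸ R)) : Set (Γ ⧸ R)) +
          (H₁ : Set (Γ ⧸ R))).ncard : ℝ)
        ≤ (Nat.card R : ℝ) * (α * (A.image π).card) :=
          mul_le_mul_of_nonneg_left hAH₁ (Nat.cast_nonneg _)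
      _ = α * ((Nat.card R * (A.image π).card : ℕ) : ℝ) := by
          push_cast
          ring
      _ = α * (((A : Set Γ) + (R : Set Γ)).ncard : ℝ) := by rw [h4]
  · intro a ha
    obtain ⟨t, ht, h⟩ := hcov₁ (π a) (Finset.mem_image_of_mem _ ha)
    refine ⟨σ t, Finset.mem_image_of_mem _ ht, ?_⟩
    obtain ⟨h₁, hh₁, s, hs, e⟩ := AddSubgroup.mem_sup.1 h
    have hcl : AddSubgroup.closure (S₁ : Set (Γ ⧸ R)) =
        (AddSubgroup.closure ((S₁.image σ : Finset Γ) : Set Γ)).map π := by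
      rw [AddMonoidHom.map_closure, Finset.coe_image, Set.image_image]
      simp only [hσ, Set.image_id']
    rw [hcl] at hs
    obtain ⟨w, hw, rfl⟩ := hs
    refine AddSubgroup.mem_sup.2 ⟨a - σ t - w, ?_, w, hw, by abel⟩
    rw [hmemH, map_sub, map_sub, hσ, ← e, add_sub_cancel_right]
    exact hh₁

theorem WeakAt.mono {n m : ℕ} (hnm : n ≤ m) {K : ℝ} (hK : 1 ≤ K) {Γ : Type*} [AddCommGroup Γ]
    [DecidableEq Γ] {A : Finset Γ} (h : WeakAt n K A) : WeakAt m K A := by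
  obtain ⟨H, S, T, h1, h2, h3, h4, h5⟩ := h
  have h6 := poly_le (a := n) (b := n) hnm hnm hK
  have h7 : (n : ℝ) ≤ m := by exact_mod_cast hnm
  exact ⟨H, S, T, h1, h2.trans (mul_le_mul_of_nonneg_right h6 (Nat.cast_nonneg _)),
    h3.trans (mul_le_mul_of_nonneg_right h7 (Real.log_nonneg (by linarith))), h4.trans h6, h5⟩

set_option maxHeartbeats 1000000 in
/-- The weak form for finite groups with prime factors in the window gives the weak form. -/
theorem weak_of_window (hW : StmWeakW.{u}) (hWM : StmWeakM.{u}) (q : ℕ) (hq : 2 ≤ q) {η : ℝ}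
    (hη0 : 0 < η) (hη1 : η ≤ 1) (n : ℕ) : ∃ m : ℕ,
    (∀ (G : Type u) [AddCommGroup G] [DecidableEq G] [Finite G] (K : ℝ) (A : Finset G),
      A.Nonempty → ((A + A).card : ℝ) ≤ K * A.card →
      (∀ p : ℕ, p.Prime → p ∣ Nat.card G → ¬ p ∣ q ∧ Real.log p < Real.log (2 * K) ^ η) →
      WeakAt n K A) →
    ∀ (Γ : Type u) [AddCommGroup Γ] [DecidableEq Γ] (K : ℝ) (A : Finset Γ),
      A.Nonempty → ((A + A).card : ℝ) ≤ K * A.card → WeakAt m K A := by
  classical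
  obtain ⟨k, hk⟩ := weak_mod hW hWM q hq hη0 hη1 (c := 1) one_pos
  obtain ⟨m, hm⟩ : ∃ m : ℕ, m = k + (n ^ 2 * k + n) * ((k + 1) * 2 ^ (3 * k + 3)) ^ (6 * n + 3) +
    ((3 * k + 3) * (6 * n + 3) + k) + (n * (15 * k + 10) + 2 * k) := ⟨_, rfl⟩
  have hmk : k ≤ m := by
    rw [hm, add_assoc, add_assoc]
    exact Nat.le_add_right _ _
  refine ⟨m, ?_⟩
  intro hwin Γ _ _ K A hA hK
  have hK1 := one_le_K hA hK
  have hK0 : 0 < K := by linarith
  have h2K : 1 ≤ 2 * K := by linarith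
  have hmod := hk Γ K A hA hK
  simp only [one_mul] at hmod
  by_cases hex : ∃ r : ℕ, r.Prime ∧ (¬ r ∣ q ∧ Real.log r < Real.log (2 * K) ^ η)
  swap
  · push Not at hex
    refine (hmod.at (pPart_eq_bot fun p hp hPp => ?_)).mono hmk hK1
    exact absurd hPp.2 (not_lt.2 (hex p hp hPp.1))
  obtain ⟨r, hr, hPr⟩ := hex
  obtain ⟨R, S, T, hR, hAR, hS, hT, hcov⟩ := hmod
  obtain ⟨ψ₀, hψ₀⟩ := gen_hom S
  set π := QuotientAddGroup.mk' R with hπ
  have hker : ∀ x, π x = 0 ↔ x ∈ R := fun x => QuotientAddGroup.eq_zero_iff x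
  obtain ⟨L, hL⟩ : ∃ L : ℝ, L = (k + 1) * (2 * K) ^ (3 * k + 3) := ⟨_, rfl⟩
  have hk1 : (1 : ℝ) ≤ (k : ℝ) + 1 := by
    have : (0 : ℝ) ≤ k := Nat.cast_nonneg _
    linarith
  have hLpow : ∀ j, j ≤ 3 * k + 3 → (2 * K) ^ j ≤ L := by
    intro j hj
    rw [hL]
    calc (2 * K) ^ j ≤ (2 * K) ^ (3 * k + 3) := pow_le_pow_right₀ h2K hj
      _ = 1 * (2 * K) ^ (3 * k + 3) := (one_mul _).symm
      _ ≤ _ := mul_le_mul_of_nonneg_right hk1 (by positivity)
  have hL2K : 2 * K ≤ L := by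
    have := hLpow 1 (by omega)
    rwa [pow_one] at this
  have hL1 : 1 ≤ L := h2K.trans hL2K
  have hL0 : 0 < L := by linarith
  have hKL3 : K ≤ L ^ 3 := by
    calc K ≤ L := by linarith
      _ = L ^ 1 := (pow_one L).symm
      _ ≤ L ^ 3 := pow_le_pow_right₀ hL1 (by norm_num)
  have hTL : (T.card : ℝ) ≤ L := by
    refine hT.trans ?_
    rw [hL]
    refine mul_le_mul (by linarith) ?_ (by positivity) (by positivity)
    exact (pow_le_pow_left₀ hK0.le (by linarith) k).trans (pow_le_pow_right₀ h2K (by omega))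
  have h5L : (5 : ℝ) ^ S.card ≤ L := (five_pow hK1 hS).trans (hLpow _ (by omega))
  have hAL : ((A.image π + A.image π).card : ℝ) ≤ L * (A.image π).card := by
    refine (image_doubling π hA hK).trans (mul_le_mul_of_nonneg_right ?_ (Nat.cast_nonneg _))
    exact (pow_le_pow_left₀ hK0.le (by linarith) 3).trans (hLpow 3 (by omega))
  have hlogmono : Real.log (2 * K) ^ η ≤ Real.log (2 * L ^ 3) ^ η := by
    refine Real.rpow_le_rpow (Real.log_nonneg h2K) ?_ hη0.le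
    exact Real.log_le_log (by positivity) (by linarith)
  obtain ⟨H₁, S₁, T₁, hH₁, hAH₁, hS₁, hT₁, hcov₁⟩ := core_e (n := n)
    (P := fun p => ¬ p ∣ q ∧ Real.log p < Real.log (2 * K) ^ η) hr hPr (L := L) (by
      intro G' _ _ _ hG' Y hY hYY
      refine hwin G' (L ^ 3) Y hY hYY ?_
      intro p hp hd
      exact ⟨(hG' p hp hd).1, (hG' p hp hd).2.trans_le hlogmono⟩)
    hL1 (hA.image π) hAL
    ((pPart (fun p => ¬ p ∣ q ∧ Real.log p < Real.log (2 * K) ^ η) Γ).map π) (by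
      rintro _ ⟨x, ⟨j, hj, hjp, hx'⟩, rfl⟩
      exact ⟨j, hj, hjp, by rw [← map_nsmul, hx', map_zero]⟩) (π.comp ψ₀) h5L (T.image π)
    ((by exact_mod_cast Finset.card_image_le : ((T.image π).card : ℝ) ≤ T.card).trans hTL) (by
      intro x hx
      obtain ⟨a, ha, rfl⟩ := Finset.mem_image.1 hx
      obtain ⟨t, ht, o, ho, h⟩ := hcov a ha
      obtain ⟨p, hp, s, hs, e⟩ := AddSubgroup.mem_sup.1 h
      obtain ⟨y, rfl⟩ := hψ₀ hs
      refine ⟨π t, Finset.mem_image_of_mem _ ht, y, o, ho, ?_⟩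
      have e1 : a = t + o + p + ψ₀ y := by
        have e2 : a = t + o + (a - t - o) := by abel
        rw [e2, ← e]
        abel
      show π o = π a - π t - π (ψ₀ y)
      rw [e1, map_add, map_add, map_add, (hker p).2 hp]
      abel)
  obtain ⟨H, S', T', hH, hAH, hS', hT', hcov'⟩ := pull R (A := A) H₁ S₁ T₁ hAH₁ hcov₁
  -- the numbers
  obtain ⟨b, hb⟩ : ∃ b : ℕ, b = (k + 1) * 2 ^ (3 * k + 3) := ⟨_, rfl⟩
  rw [← hb] at hm
  have hb1 : 1 ≤ b := by
    rw [hb]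
    exact Nat.one_le_iff_ne_zero.2 (Nat.mul_ne_zero (by omega) (by positivity))
  have hLb : L = b * K ^ (3 * k + 3) := by
    rw [hL, hb, mul_pow]
    push_cast
    ring
  have hLe : ∀ e, L ^ e = (b ^ e : ℕ) * K ^ ((3 * k + 3) * e) := by
    intro e
    rw [hLb, mul_pow, ← pow_mul]
    push_cast
    rfl
  refine ⟨H, S', T', hH, ?_, ?_, ?_, hcov'⟩
  · refine hAH.trans ?_
    have h1 : (n : ℝ) ^ 2 * L ^ (6 * n + 3) * (((A : Set Γ) + (R : Set Γ)).ncard : ℝ) ≤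
        (n : ℝ) ^ 2 * L ^ (6 * n + 3) * (k * K ^ k * A.card) :=
      mul_le_mul_of_nonneg_left hAR (by positivity)
    refine h1.trans ?_
    have e1 : (n : ℝ) ^ 2 * L ^ (6 * n + 3) * (k * K ^ k * A.card) =
        (((n ^ 2 * k * b ^ (6 * n + 3) : ℕ) : ℝ) * K ^ ((3 * k + 3) * (6 * n + 3) + k)) *
          A.card := by
      rw [hLe, pow_add K]
      push_cast
      ring
    rw [e1]
    refine mul_le_mul_of_nonneg_right (poly_le ?_ ?_ hK1) (Nat.cast_nonneg _)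
    · have h2 : n ^ 2 * k * b ^ (6 * n + 3) ≤ (n ^ 2 * k + n) * b ^ (6 * n + 3) :=
        Nat.mul_le_mul_right _ (Nat.le_add_right _ _)
      rw [hm]
      omega
    · rw [hm]
      omega
  · have h1 : (S'.card : ℝ) ≤ S₁.card := by exact_mod_cast hS'
    refine h1.trans (hS₁.trans ?_)
    have hlog2 := Real.log_two_gt_d9
    have hlog2K : Real.log 2 ≤ Real.log (2 * K) := Real.log_le_log (by norm_num) (by linarith)
    have hlog0 : 0 ≤ Real.log (2 * K) := Real.log_nonneg h2K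
    have hk0 : (0 : ℝ) ≤ k := Nat.cast_nonneg _
    have e1 : Real.log (2 * L ^ 3) ≤ (15 * k + 10 : ℕ) * Real.log (2 * K) := by
      have h2 : Real.log (2 * L ^ 3) = Real.log 2 + 3 * (Real.log (k + 1) +
          (3 * k + 3 : ℕ) * Real.log (2 * K)) := by
        rw [Real.log_mul (by norm_num) (by positivity), Real.log_pow, hL,
          Real.log_mul (by positivity) (by positivity), Real.log_pow]
        push_cast
        ring
      have h3 : Real.log ((k : ℝ) + 1) ≤ k := by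
        have := Real.log_le_sub_one_of_pos (by linarith : (0 : ℝ) < (k : ℝ) + 1)
        linarith
      have h4 : (k : ℝ) ≤ 2 * k * Real.log (2 * K) := by nlinarith
      have h8 : 3 * (Real.log ((k : ℝ) + 1) + (3 * k + 3 : ℕ) * Real.log (2 * K)) ≤
          3 * (2 * k * Real.log (2 * K) + (3 * k + 3) * Real.log (2 * K)) := by
        push_cast
        linarith
      rw [h2]
      calc Real.log 2 + 3 * (Real.log ((k : ℝ) + 1) + (3 * k + 3 : ℕ) * Real.log (2 * K))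
          ≤ Real.log (2 * K) + 3 * (2 * k * Real.log (2 * K) + (3 * k + 3) * Real.log (2 * K)) := by
            linarith
        _ = _ := by push_cast; ring
    have h5 : (n : ℝ) * Real.log (2 * L ^ 3) ≤ n * ((15 * k + 10 : ℕ) * Real.log (2 * K)) :=
      mul_le_mul_of_nonneg_left e1 (Nat.cast_nonneg _)
    have h6 : n * (15 * k + 10) + 2 * k ≤ m := by rw [hm]; omega
    have h7 : ((n * (15 * k + 10) + 2 * k : ℕ) : ℝ) ≤ m := by exact_mod_cast h6
    calc (n : ℝ) * Real.log (2 * L ^ 3) + 2 * (S.card : ℝ)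
        ≤ n * ((15 * k + 10 : ℕ) * Real.log (2 * K)) + 2 * (k * Real.log (2 * K)) := by linarith
      _ = ((n * (15 * k + 10) + 2 * k : ℕ) : ℝ) * Real.log (2 * K) := by push_cast; ring
      _ ≤ m * Real.log (2 * K) := mul_le_mul_of_nonneg_right h7 hlog0
  · have h1 : (T'.card : ℝ) ≤ T₁.card := by exact_mod_cast hT'
    refine h1.trans (hT₁.trans ?_)
    rw [hLe, ← mul_assoc]
    have e1 : (n : ℝ) * ((b ^ (3 * n + 3) : ℕ) : ℝ) = ((n * b ^ (3 * n + 3) : ℕ) : ℝ) := by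
      push_cast
      rfl
    rw [e1]
    refine poly_le ?_ ?_ hK1
    · have h2 : n * b ^ (3 * n + 3) ≤ (n ^ 2 * k + n) * b ^ (6 * n + 3) :=
        Nat.mul_le_mul (Nat.le_add_left _ _) (Nat.pow_le_pow_right hb1 (by omega))
      rw [hm]
      omega
    · have h2 : (3 * k + 3) * (3 * n + 3) ≤ (3 * k + 3) * (6 * n + 3) :=
        Nat.mul_le_mul_left _ (by omega)
      rw [hm]
      omega

/-- **The window equivalence.** -/
theorem equiv_window (hW : StmWeakW.{u}) (hWM : StmWeakM.{u}) (q : ℕ) (hq : 2 ≤ q) {η : ℝ}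
    (hη0 : 0 < η) (hη1 : η ≤ 1) :
    (∃ C : ℝ, ∀ (Γ : Type u) [AddCommGroup Γ] [DecidableEq Γ], Q1For C Γ) ↔
      (∃ C : ℝ, Q1For C ℤ) ∧ ∃ n : ℕ,
        ∀ (G : Type u) [AddCommGroup G] [DecidableEq G] [Finite G] (K : ℝ) (A : Finset G),
          A.Nonempty → ((A + A).card : ℝ) ≤ K * A.card →
          (∀ p : ℕ, p.Prime → p ∣ Nat.card G → ¬ p ∣ q ∧ Real.log p < Real.log (2 * K) ^ η) →
          WeakAt n K A := by
  classical
  constructor
  · rintro ⟨C, hC⟩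
    refine ⟨⟨C, ?_⟩, ?_⟩
    · have h1 : Q1For C (ULift.{u} ℤ) := hC (ULift.{u} ℤ)
      exact q1_equiv AddEquiv.ulift h1
    · obtain ⟨n, hn⟩ := weak_of_q1.{u} C
      exact ⟨n, fun G _ _ _ K A hA hK _ => hn G (hC G) K A hA hK⟩
  · rintro ⟨⟨C, hC⟩, ⟨n, hn⟩⟩
    obtain ⟨C₁, hC₁⟩ := zd_of_int C
    obtain ⟨m, hm⟩ := weak_of_window hW hWM q hq hη0 hη1 n
    obtain ⟨C₂, hC₂⟩ := q1_at.{u} C₁ m
    exact ⟨C₂, fun Γ _ _ K A hA hK => hC₂ (hC₁ hC) Γ K A hA hK (hm hn Γ K A hA hK)⟩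

end Pool.Agent.N112.WM
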