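import Mathlib

/-!
# Project WM: the weak form of Marton's conjecture with large torsion primes (statements)
-/

set_option autoImplicit false

namespace Pool.Agent.N112.WM

open Finset
open scoped Pointwise

universe u

/-- The Fourier transform of the indicator function of `D`. -/
noncomputable def ft {H : Type*} [AddCommGroup H] (D : Finset H) (χ : AddChar H ℂ) : ℂ :=
  ∑ x ∈ D, χ x

/-- The annihilator of a subgroup of the dual group. -/
def perp {H : Type*} [AddCommGroup H] (V : AddSubgroup (AddChar H ℂ)) : AddSubgroup H where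
  carrier := {h | ∀ χ ∈ V, χ h = 1}
  zero_mem' := fun χ _ => χ.map_zero_eq_one
  add_mem' := by
    intro a b ha hb χ hχ
    rw [AddChar.map_add_eq_mul, ha χ hχ, hb χ hχ, one_mul]
  neg_mem' := by
    intro a ha χ hχ
    rw [AddChar.map_neg_eq_inv, ha χ hχ, inv_one]

theorem mem_perp {H : Type*} [AddCommGroup H] (V : AddSubgroup (AddChar H ℂ)) (h : H) :
    h ∈ perp V ↔ ∀ χ ∈ V, χ h = 1 := Iff.rfl

/-- No elements of order `p` for the primes `p < p₀`. -/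
def NoTor (p₀ : ℕ) (G : Type*) [AddCommGroup G] : Prop :=
  ∀ p : ℕ, p.Prime → p < p₀ → ∀ x : G, p • x = 0 → x = 0

/-- WM1: the large spectrum of a set of small doubling. -/
def StmSpec : Prop := ∀ (H : Type u) [AddCommGroup H] [Finite H] [DecidableEq H] (D : Finset H)
  (L : ℝ), D.Nonempty → ((D + D).card : ℝ) ≤ L * D.card →
  ∃ Q : Finset (AddChar H ℂ), Q.Nonempty ∧
    (∀ χ ∈ Q, (D.card : ℝ) ^ 2 ≤ 2 * L * ‖ft D χ‖ ^ 2) ∧
    (Nat.card H : ℝ) ≤ 2 * L * D.card * Q.card ∧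
    (Q.card * D.card : ℝ) ≤ 2 * L * Nat.card H ∧
    (Q.card : ℝ) ^ 3 ≤ 8 * L ^ 3 * (Q.addEnergy Q : ℕ)

/-- WM2: Parseval on a coset of a subgroup of the dual group. -/
def StmCoset : Prop := ∀ (H : Type u) [AddCommGroup H] [Finite H] [DecidableEq H]
  (V : AddSubgroup (AddChar H ℂ)),
  Nat.card V * Nat.card (perp V) = Nat.card H ∧
  ∀ (D : Finset H) (χ₀ : AddChar H ℂ) (Q : Finset (AddChar H ℂ)), D.Nonempty →
    (∀ χ ∈ Q, χ - χ₀ ∈ V) →
    ∃ E ⊆ D, E.Nonempty ∧ (∀ x ∈ E, ∀ y ∈ E, x - y ∈ perp V) ∧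
      ∑ χ ∈ Q, ‖ft D χ‖ ^ 2 ≤ Nat.card V * (D.card * E.card : ℝ)

/-- WM3: duality and generators; torsion of the dual group. -/
def StmRank : Prop := ∀ (H : Type u) [AddCommGroup H] [Finite H] [DecidableEq H],
  (∀ X : Finset (AddChar H ℂ), ∃ S : Finset H, S.card ≤ X.card ∧
    perp (AddSubgroup.closure (X : Set (AddChar H ℂ))) ⊔ AddSubgroup.closure (S : Set H) = ⊤) ∧
  ∀ p₀ : ℕ, NoTor p₀ H → NoTor p₀ (AddChar H ℂ)

/-- WM4: finite groups. -/
def StmFin : Prop := ∀ (H : Type u) [AddCommGroup H] [Finite H] [DecidableEq H] (D : Finset H)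
  (L M η : ℝ) (p₀ : ℕ), D.Nonempty → ((D + D).card : ℝ) ≤ L * D.card → 1 ≤ L →
  (Nat.card H : ℝ) ≤ M * D.card → 0 < η → η ≤ 1 → 2 ≤ p₀ → NoTor p₀ H →
  ∃ (H₀ : AddSubgroup H) (S : Finset H),
    (((D : Set H) + (H₀ : Set H)).ncard : ℝ) ≤ (2 * L) ^ (4 * 10 ^ 8 / η) * D.card ∧
    (S.card : ℝ) ≤ 4 * 10 ^ 8 / η * (Real.log (2 * L) + Real.log (2 * L) ^ (1 + η) / Real.log p₀)
      + Real.log (2 * L * M) / Real.log p₀ + 2 ∧
    H₀ ⊔ AddSubgroup.closure (S : Set H) = ⊤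

/-- WM5: the weak form of Marton's conjecture with large torsion primes. -/
def StmWeak : Prop := ∀ (G : Type u) [AddCommGroup G] [DecidableEq G] (K : ℝ) (A : Finset G)
  (η : ℝ) (p₀ : ℕ), A.Nonempty → ((A + A).card : ℝ) ≤ K * A.card → 0 < η → η ≤ 1 → 2 ≤ p₀ →
  NoTor p₀ G →
  ∃ (H : AddSubgroup G) (S T : Finset G), Finite H ∧
    (((A : Set G) + (H : Set G)).ncard : ℝ) ≤ (2 * K) ^ (10 ^ 11 / η) * A.card ∧
    (S.card : ℝ) ≤ 10 ^ 11 / η *
      (Real.log (2 * K) + Real.log (2 * K) ^ (1 + η) / Real.log p₀) ∧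
    (T.card : ℝ) ≤ (2 * K) ^ (30000 / η) ∧
    ∀ a ∈ A, ∃ t ∈ T, a - t ∈ H ⊔ AddSubgroup.closure (S : Set G)

end Pool.Agent.N112.WM
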