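import Pool.Agent.N112.PR.Q1
import Pool.Agent.N112.WM.Stm

/-!
# Local form of the weak statement; groups without small torsion
-/

set_option autoImplicit false

namespace Pool.Agent.N112.WM

open Finset Pool.Agent.Y806.DF Pool.Agent.R92.Star Pool.Agent.R424.EX Pool.Agent.N112.PR
open scoped Pointwise

universe u

/-- The weak (rank) form of Q1 for the set `A`. -/
def WeakAt (n : ℕ) (K : ℝ) {Γ : Type*} [AddCommGroup Γ] [DecidableEq Γ] (A : Finset Γ) : Prop :=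
  ∃ (H : AddSubgroup Γ) (S T : Finset Γ), Finite H ∧
    (((A : Set Γ) + (H : Set Γ)).ncard : ℝ) ≤ n * K ^ n * A.card ∧
    (S.card : ℝ) ≤ n * Real.log (2 * K) ∧ (T.card : ℝ) ≤ n * K ^ n ∧
    ∀ a ∈ A, ∃ t ∈ T, a - t ∈ H ⊔ AddSubgroup.closure (S : Set Γ)

/-- the elements whose order has no prime factor below `p₀` -/
def rough (p₀ : ℕ) (Γ : Type*) [AddCommGroup Γ] : AddSubgroup Γ where
  carrier := {x | ∃ m : ℕ, m ≠ 0 ∧ (∀ p : ℕ, p.Prime → p < p₀ → ¬ p ∣ m) ∧ m • x = 0}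
  zero_mem' := ⟨1, one_ne_zero, fun p hp _ h => hp.one_lt.ne' (Nat.dvd_one.1 h), smul_zero 1⟩
  add_mem' := by
    rintro x y ⟨m, hm, hmp, hx⟩ ⟨k, hk, hkp, hy⟩
    refine ⟨m * k, Nat.mul_ne_zero hm hk, ?_, ?_⟩
    · intro p hp hlt hdvd
      rcases (hp.dvd_mul).1 hdvd with h | h
      · exact hmp p hp hlt h
      · exact hkp p hp hlt h
    · rw [smul_add, mul_comm m k, mul_smul, hx, smul_zero, zero_add, mul_comm k m, mul_smul, hy,
        smul_zero]
  neg_mem' := by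
    rintro x ⟨m, hm, hmp, hx⟩
    exact ⟨m, hm, hmp, by rw [smul_neg, hx, neg_zero]⟩

theorem noTor_of_rough {p₀ : ℕ} {Γ : Type*} [AddCommGroup Γ] (h : ∀ x : Γ, x ∈ rough p₀ Γ) :
    NoTor p₀ Γ := by
  intro p hp hlt x hx
  obtain ⟨m, hm, hmp, hmx⟩ := h x
  have hcop : Nat.Coprime p m := (Nat.Prime.coprime_iff_not_dvd hp).2 (hmp p hp hlt)
  have h1 : addOrderOf x ∣ p := addOrderOf_dvd_of_nsmul_eq_zero hx
  have h2 : addOrderOf x ∣ m := addOrderOf_dvd_of_nsmul_eq_zero hmx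
  have h3 : addOrderOf x = 1 := Nat.dvd_one.1 (hcop ▸ Nat.dvd_gcd h1 h2)
  rwa [AddMonoid.addOrderOf_eq_one_iff] at h3

theorem finite_rough {G : Type*} [AddCommGroup G] {p₀ : ℕ} (F : Finset G)
    (hF : (F : Set G) ⊆ rough p₀ G) :
    Finite (AddSubgroup.closure (F : Set G)) ∧ NoTor p₀ (AddSubgroup.closure (F : Set G)) := by
  have hle : AddSubgroup.closure (F : Set G) ≤ rough p₀ G := (AddSubgroup.closure_le _).2 hF
  have hr : ∀ x : AddSubgroup.closure (F : Set G),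
      x ∈ rough p₀ (AddSubgroup.closure (F : Set G)) := by
    intro x
    obtain ⟨m, hm, hmp, h⟩ := hle x.2
    exact ⟨m, hm, hmp, Subtype.ext h⟩
  have hfg : AddGroup.FG (AddSubgroup.closure (F : Set G)) :=
    (AddGroup.fg_iff_addSubgroup_fg _).2 ⟨F, rfl⟩
  refine ⟨?_, noTor_of_rough hr⟩
  refine AddCommGroup.finite_of_fg_isAddTorsion _ ?_
  intro x
  obtain ⟨m, hm, -, h⟩ := hr x
  exact isOfFinAddOrder_iff_nsmul_eq_zero.2 ⟨m, Nat.pos_of_ne_zero hm, h⟩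

/-- without odd torsion below `p₀` the elements of odd order are rough -/
theorem odd_le_rough {Γ : Type*} [AddCommGroup Γ] {p₀ : ℕ}
    (h : ∀ p : ℕ, p.Prime → p ≠ 2 → p < p₀ → ∀ x : Γ, p • x = 0 → x = 0) :
    oddPart Γ ≤ rough p₀ Γ := by
  rintro x ⟨m, hm, hx⟩
  refine ⟨addOrderOf x, ?_, ?_, addOrderOf_nsmul_eq_zero x⟩
  · have : 0 < addOrderOf x := addOrderOf_pos_iff.2
      (isOfFinAddOrder_iff_nsmul_eq_zero.2 ⟨m, hm.pos, hx⟩)
    omega
  · intro p hp hlt hdvd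
    have hpos : 0 < addOrderOf x := addOrderOf_pos_iff.2
      (isOfFinAddOrder_iff_nsmul_eq_zero.2 ⟨m, hm.pos, hx⟩)
    obtain ⟨k, hk⟩ := hdvd
    have hp2 : p ≠ 2 := by
      rintro rfl
      have h1 : 2 ∣ m := (Dvd.intro k hk.symm).trans (addOrderOf_dvd_of_nsmul_eq_zero hx)
      obtain ⟨j, hj⟩ := hm
      omega
    have h1 : p • (k • x) = 0 := by
      rw [← mul_smul, ← hk]
      exact addOrderOf_nsmul_eq_zero x
    have h2 := h p hp hp2 hlt _ h1
    have h3 := addOrderOf_dvd_of_nsmul_eq_zero h2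
    have hk0 : 0 < k := by
      rcases Nat.eq_zero_or_pos k with h0 | h0
      · rw [h0, mul_zero] at hk
        omega
      · exact h0
    have h4 := Nat.le_of_dvd hk0 h3
    have h5 := hp.two_le
    nlinarith

theorem noTor_prod {p₀ d N : ℕ} (hN : N.Prime) (hNp : p₀ ≤ N) {O : Type*} [AddCommGroup O]
    (hO : NoTor p₀ O) : NoTor p₀ ((Fin d → ZMod N) × O) := by
  intro p hp hlt x hx
  have : Fact N.Prime := ⟨hN⟩
  refine Prod.ext ?_ ?_
  · funext i
    have h1 : p • x.1 i = 0 := congrFun (congrArg Prod.fst hx) i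
    rw [nsmul_eq_mul] at h1
    rcases mul_eq_zero.1 h1 with h2 | h2
    · exfalso
      have h3 := (ZMod.natCast_eq_zero_iff _ _).1 h2
      have h4 := Nat.le_of_dvd hp.pos h3
      omega
    · exact h2
  · exact hO p hp hlt x.2 (congrArg Prod.snd hx)

end Pool.Agent.N112.WM
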