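import Pool.Agent.N112.WM.Stm

/-!
# Project WM, third part: arbitrary torsion, modulo the part with small primes
-/

set_option autoImplicit false

namespace Pool.Agent.N112.WM

open Finset
open scoped Pointwise

universe u

/-- the elements killed by a nonzero integer all of whose prime factors satisfy `P` -/
def pPart (P : ℕ → Prop) (Γ : Type*) [AddCommGroup Γ] : AddSubgroup Γ where
  carrier := {x | ∃ k : ℕ, k ≠ 0 ∧ (∀ p : ℕ, p.Prime → p ∣ k → P p) ∧ k • x = 0}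
  zero_mem' := ⟨1, one_ne_zero, fun p hp h => absurd (Nat.dvd_one.1 h) hp.one_lt.ne', smul_zero 1⟩
  add_mem' := by
    rintro x y ⟨m, hm, hmp, hx⟩ ⟨k, hk, hkp, hy⟩
    refine ⟨m * k, Nat.mul_ne_zero hm hk, ?_, ?_⟩
    · intro p hp hdvd
      rcases (hp.dvd_mul).1 hdvd with h | h
      · exact hmp p hp h
      · exact hkp p hp h
    · rw [smul_add, mul_comm m k, mul_smul, hx, smul_zero, zero_add, mul_comm k m, mul_smul, hy,
        smul_zero]
  neg_mem' := by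
    rintro x ⟨m, hm, hmp, hx⟩
    exact ⟨m, hm, hmp, by rw [smul_neg, hx, neg_zero]⟩

/-- WM9: finite groups, modulo the elements whose order has only prime factors `< p₀`. -/
def StmFinW : Prop := ∀ (H : Type u) [AddCommGroup H] [Finite H] [DecidableEq H] (D : Finset H)
  (L M η : ℝ) (p₀ : ℕ), D.Nonempty → ((D + D).card : ℝ) ≤ L * D.card → 1 ≤ L →
  (Nat.card H : ℝ) ≤ M * D.card → 0 < η → η ≤ 1 → 2 ≤ p₀ →
  ∃ (H₀ : AddSubgroup H) (S : Finset H),
    (((D : Set H) + (H₀ : Set H)).ncard : ℝ) ≤ (2 * L) ^ (4 * 10 ^ 8 / η) * D.card ∧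
    (S.card : ℝ) ≤ 4 * 10 ^ 8 / η * (Real.log (2 * L) + Real.log (2 * L) ^ (1 + η) / Real.log p₀)
      + Real.log (2 * L * M) / Real.log p₀ + 2 ∧
    ∀ x : H, ∃ o ∈ pPart (fun p => p < p₀) H, x - o ∈ H₀ ⊔ AddSubgroup.closure (S : Set H)

/-- WM10: all groups, modulo the elements whose order has only prime factors `< p₀`. -/
def StmWeakW : Prop := ∀ (G : Type u) [AddCommGroup G] [DecidableEq G] (K : ℝ) (A : Finset G)
  (η : ℝ) (p₀ : ℕ), A.Nonempty → ((A + A).card : ℝ) ≤ K * A.card → 0 < η → η ≤ 1 → 2 ≤ p₀ →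
  ∃ (H : AddSubgroup G) (S T : Finset G), Finite H ∧
    (((A : Set G) + (H : Set G)).ncard : ℝ) ≤ (2 * K) ^ (10 ^ 11 / η) * A.card ∧
    (S.card : ℝ) ≤ 10 ^ 11 / η *
      (Real.log (2 * K) + Real.log (2 * K) ^ (1 + η) / Real.log p₀) ∧
    (T.card : ℝ) ≤ (2 * K) ^ (30000 / η) ∧
    ∀ a ∈ A, ∃ t ∈ T, ∃ o ∈ pPart (fun p => p < p₀) G,
      a - t - o ∈ H ⊔ AddSubgroup.closure (S : Set G)

end Pool.Agent.N112.WM
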