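import Pool.Agent.N112.WM.AllM
import Pool.Agent.N112.WM.Stm3

/-!
# The weak form modulo a subgroup of torsion elements
-/

set_option autoImplicit false

namespace Pool.Agent.N112.WM

open Finset Pool.Agent.Y806.DF Pool.Agent.R92.Star Pool.Agent.R424.EX Pool.Agent.N112.PR
open scoped Pointwise

universe u

/-- The weak (rank) form of Q1 for the set `A`, modulo the subgroup `W`. -/
def WeakMod (n : ℕ) (K : ℝ) {Γ : Type*} [AddCommGroup Γ] [DecidableEq Γ] (W : AddSubgroup Γ)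
    (A : Finset Γ) : Prop :=
  ∃ (H : AddSubgroup Γ) (S T : Finset Γ), Finite H ∧
    (((A : Set Γ) + (H : Set Γ)).ncard : ℝ) ≤ n * K ^ n * A.card ∧
    (S.card : ℝ) ≤ n * Real.log (2 * K) ∧ (T.card : ℝ) ≤ n * K ^ n ∧
    ∀ a ∈ A, ∃ t ∈ T, ∃ o ∈ W, a - t - o ∈ H ⊔ AddSubgroup.closure (S : Set Γ)

theorem WeakMod.at {n : ℕ} {K : ℝ} {Γ : Type*} [AddCommGroup Γ] [DecidableEq Γ]
    {W : AddSubgroup Γ} {A : Finset Γ} (h : WeakMod n K W A) (hW : W = ⊥) : WeakAt n K A := by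
  obtain ⟨H, S, T, h1, h2, h3, h4, h5⟩ := h
  refine ⟨H, S, T, h1, h2, h3, h4, fun a ha => ?_⟩
  obtain ⟨t, ht, o, ho, h6⟩ := h5 a ha
  rw [hW, AddSubgroup.mem_bot] at ho
  rw [ho, sub_zero] at h6
  exact ⟨t, ht, h6⟩

theorem WeakMod.mono {n : ℕ} {K : ℝ} {Γ : Type*} [AddCommGroup Γ] [DecidableEq Γ]
    {W W' : AddSubgroup Γ} {A : Finset Γ} (h : WeakMod n K W A) (hW : W ≤ W') :
    WeakMod n K W' A := by
  obtain ⟨H, S, T, h1, h2, h3, h4, h5⟩ := h
  refine ⟨H, S, T, h1, h2, h3, h4, fun a ha => ?_⟩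
  obtain ⟨t, ht, o, ho, h6⟩ := h5 a ha
  exact ⟨t, ht, o, hW ho, h6⟩

theorem pPart_mono {P Q : ℕ → Prop} (h : ∀ p, p.Prime → P p → Q p) (Γ : Type*) [AddCommGroup Γ] :
    pPart P Γ ≤ pPart Q Γ := by
  rintro x ⟨k, hk, hkp, hx⟩
  exact ⟨k, hk, fun p hp hd => h p hp (hkp p hp hd), hx⟩

/-- no torsion at the primes with `P` -/
theorem pPart_eq_bot {P : ℕ → Prop} {Γ : Type*} [AddCommGroup Γ]
    (h : ∀ p : ℕ, p.Prime → P p → ∀ x : Γ, p • x = 0 → x = 0) : pPart P Γ = ⊥ := by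
  have key : ∀ k : ℕ, k ≠ 0 → (∀ p : ℕ, p.Prime → p ∣ k → P p) → ∀ x : Γ, k • x = 0 → x = 0 := by
    intro k
    induction k using Nat.recOnMul with
    | zero => exact fun hk => absurd rfl hk
    | one =>
      intro _ _ x hx
      rwa [one_smul] at hx
    | prime p hp => exact fun _ hkp x hx => h p hp (hkp p hp dvd_rfl) x hx
    | mul a b iha ihb =>
      intro hk hkp x hx
      rw [mul_smul] at hx
      exact ihb (right_ne_zero_of_mul hk) (fun p hp hd => hkp p hp (hd.mul_left a)) x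
        (iha (left_ne_zero_of_mul hk) (fun p hp hd => hkp p hp (hd.mul_right b)) _ hx)
  rw [eq_bot_iff]
  rintro x ⟨k, hk, hkp, hx⟩
  rw [AddSubgroup.mem_bot]
  exact key k hk hkp x hx

/-- splitting a number -/
theorem split_num (P : ℕ → Prop) (N : ℕ) (hN : N ≠ 0) : ∃ a b : ℕ, N = a * b ∧
    (∀ p : ℕ, p.Prime → p ∣ a → P p) ∧ ∀ p : ℕ, p.Prime → p ∣ b → ¬ P p := by
  classical
  induction N using Nat.recOnMul with
  | zero => exact absurd rfl hN
  | one =>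
    exact ⟨1, 1, rfl, fun p hp h => absurd (Nat.dvd_one.1 h) hp.one_lt.ne',
      fun p hp h => absurd (Nat.dvd_one.1 h) hp.one_lt.ne'⟩
  | prime p hp =>
    by_cases hP : P p
    · refine ⟨p, 1, (mul_one p).symm, fun q hq h => ?_,
        fun q hq h => absurd (Nat.dvd_one.1 h) hq.one_lt.ne'⟩
      rwa [(Nat.prime_dvd_prime_iff_eq hq hp).1 h]
    · refine ⟨1, p, (one_mul p).symm, fun q hq h => absurd (Nat.dvd_one.1 h) hq.one_lt.ne',
        fun q hq h => ?_⟩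
      rwa [(Nat.prime_dvd_prime_iff_eq hq hp).1 h]
  | mul x y ihx ihy =>
    obtain ⟨a, b, h1, h2, h3⟩ := ihx (left_ne_zero_of_mul hN)
    obtain ⟨a', b', h1', h2', h3'⟩ := ihy (right_ne_zero_of_mul hN)
    refine ⟨a * a', b * b', by rw [h1, h1']; ring, fun p hp h => ?_, fun p hp h => ?_⟩
    · rcases (hp.dvd_mul).1 h with h | h
      · exact h2 p hp h
      · exact h2' p hp h
    · rcases (hp.dvd_mul).1 h with h | h
      · exact h3 p hp h
      · exact h3' p hp h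

/-- the `P`-part of a quotient by a finite subgroup lifts -/
theorem lift_pPart (P : ℕ → Prop) {Γ : Type*} [AddCommGroup Γ] (R : AddSubgroup Γ) [Finite R]
    (x : Γ) (hx : QuotientAddGroup.mk' R x ∈ pPart P (Γ ⧸ R)) :
    ∃ o ∈ pPart P Γ, x - o ∈ R := by
  obtain ⟨k, hk, hkp, hkx⟩ := hx
  rw [← map_nsmul] at hkx
  have h1 : k • x ∈ R := (QuotientAddGroup.eq_zero_iff _).1 hkx
  obtain ⟨a, b, hab, ha, hb⟩ := split_num P (Nat.card R) Nat.card_pos.ne'
  have hN : Nat.card R • (k • x) = 0 := by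
    have h2 : Nat.card R • (⟨k • x, h1⟩ : R) = 0 := card_nsmul_eq_zero'
    have h3 := congrArg R.subtype h2
    rw [map_nsmul, map_zero] at h3
    exact h3
  have hcop : IsCoprime ((k * a : ℕ) : ℤ) (b : ℤ) := by
    rw [Nat.isCoprime_iff_coprime]
    refine Nat.Coprime.symm (Nat.coprime_of_dvd fun p hp hpb hpk => ?_)
    refine hb p hp hpb ?_
    rcases (hp.dvd_mul).1 hpk with h | h
    · exact hkp p hp h
    · exact ha p hp h
  obtain ⟨u, v, huv⟩ := hcop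
  have ha0 : a ≠ 0 := by
    rintro rfl
    rw [zero_mul] at hab
    exact Nat.card_pos.ne' hab
  refine ⟨(v * b) • x, ⟨k * a, Nat.mul_ne_zero hk ha0, ?_, ?_⟩, ?_⟩
  · intro p hp hd
    rcases (hp.dvd_mul).1 hd with h | h
    · exact hkp p hp h
    · exact ha p hp h
  · have h2 : (k * a) • ((v * b) • x) = v • (Nat.card R • (k • x)) := by
      rw [hab, ← natCast_zsmul, ← natCast_zsmul, ← natCast_zsmul, smul_smul, smul_smul, smul_smul]
      congr 1
      push_cast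
      ring
    rw [h2, hN, smul_zero]
  · have h2 : x - (v * b) • x = (u * a) • (k • x) := by
      have h3 : x = (u * ((k * a : ℕ) : ℤ) + v * (b : ℤ)) • x := by rw [huv, one_smul]
      have h4 : x - (v * b) • x = (u * ((k * a : ℕ) : ℤ) + v * (b : ℤ)) • x - (v * b) • x := by
        rw [← h3]
      rw [h4, ← sub_smul, ← natCast_zsmul, smul_smul]
      congr 1
      push_cast
      ring
    rw [h2]
    exact R.zsmul_mem h1 _

/-- elements of order prime to `q` in the `P`-part -/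
theorem pPart_inf_cop {P : ℕ → Prop} {q : ℕ} {Γ : Type*} [AddCommGroup Γ] {x : Γ}
    (h1 : x ∈ pPart P Γ) (h2 : x ∈ copPart q Γ) : x ∈ pPart (fun p => ¬ p ∣ q ∧ P p) Γ := by
  obtain ⟨k, hk, hkp, hx⟩ := h1
  obtain ⟨j, hj, hx'⟩ := h2
  have hpos : 0 < addOrderOf x := addOrderOf_pos_iff.2
    (isOfFinAddOrder_iff_nsmul_eq_zero.2 ⟨k, Nat.pos_of_ne_zero hk, hx⟩)
  refine ⟨addOrderOf x, by omega, ?_, addOrderOf_nsmul_eq_zero x⟩
  intro p hp hd
  have hpk : p ∣ k := hd.trans (addOrderOf_dvd_of_nsmul_eq_zero hx)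
  have hpj : p ∣ j := hd.trans (addOrderOf_dvd_of_nsmul_eq_zero hx')
  exact ⟨fun hpq => hp.one_lt.ne' (Nat.dvd_one.1 (hj ▸ Nat.dvd_gcd hpj hpq)), hkp p hp hpk⟩

end Pool.Agent.N112.WM
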