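import Pool.Agent.N112.WM.Equiv
import Pool.Agent.N49.WM.Spec
import Pool.Agent.N342.WM.Coset
import Pool.Agent.N490.WM.Rank
import Pool.Agent.N738.WM.FinW
import Pool.Agent.N498.WM.WeakW
import Pool.Agent.N861.WM.PairM
import Pool.Agent.N849.WM.RankM
import Pool.Agent.N314.WM.WeakM

/-!
# Project WM: the two weak theorems
-/

set_option autoImplicit false

namespace Pool.Agent.N112.WM

universe u

/-- the weak theorem modulo the torsion at small primes -/
theorem weak_w : StmWeakW.{u} :=
  Pool.Agent.N498.WM.weakW (Pool.Agent.N738.WM.finW Pool.Agent.N49.WM.spec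
    Pool.Agent.N342.WM.coset Pool.Agent.N490.WM.rank)

/-- the weak theorem modulo the torsion prime to `m` -/
theorem weak_m : StmWeakM.{u} :=
  weakM Pool.Agent.N861.WM.PairM.pairM Pool.Agent.N849.WM.rankM

end Pool.Agent.N112.WM
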