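import Pool.Agent.N112.WM.Loc

/-!
# Q1 for the lattices and the weak form for a set imply Q1 for the set
-/

set_option autoImplicit false

namespace Pool.Agent.N112.WM

open Finset Pool.Agent.Y806.DF Pool.Agent.R92.Star Pool.Agent.R424.EX Pool.Agent.N112.PR
open scoped Pointwise

universe u

set_option maxHeartbeats 1000000 in
/-- **Q1 for the lattices and the weak form imply Q1.** -/
theorem q1_at (C : ℝ) (n : ℕ) : ∃ C' : ℝ, (∀ d : ℕ, Q1For C (Fin d → ℤ)) →
    ∀ (Γ : Type u) [AddCommGroup Γ] [DecidableEq Γ] (K : ℝ) (A : Finset Γ), A.Nonempty →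
      ((A + A).card : ℝ) ≤ K * A.card → WeakAt n K A → Concl C' K A := by
  classical
  obtain ⟨k, hk1, hk, hCK⟩ := nat_const C
  obtain ⟨C', hC'⟩ := concl_of.{u}
    ((n + 1) * 2 ^ (2 * k) * (k + 1) ^ 2 * ((n + 1) * 2 ^ (3 * n + 3)) ^ (12 * k + 3))
    (n + (3 * n + 3) * (12 * k + 3))
  refine ⟨C', ?_⟩
  intro hZ Γ _ _ K A hA hK hW
  have hK1 := one_le_K hA hK
  have hK0 : 0 < K := by linarith
  have h2K : 1 ≤ 2 * K := by linarith
  obtain ⟨H, S, T, hHfin, hAH, hS, hT, hcov⟩ := hW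
  obtain ⟨d, hSd, ψ₀, hψ₀⟩ : ∃ d : ℕ, (d : ℝ) ≤ n * Real.log (2 * K) ∧
      ∃ ψ₀ : (Fin d → ℤ) →+ Γ, AddSubgroup.closure (S : Set Γ) ≤ ψ₀.range :=
    ⟨S.card, hS, gen_hom S⟩
  set π := QuotientAddGroup.mk' H with hπ
  have hker : ∀ x, π x = 0 ↔ x ∈ H := fun x => QuotientAddGroup.eq_zero_iff x
  have hsurj : Function.Surjective π := QuotientAddGroup.mk'_surjective H
  choose σ hσ using hsurj
  obtain ⟨L, hL⟩ : ∃ L : ℝ, L = (n + 1) * (2 * K) ^ (3 * n + 3) := ⟨_, rfl⟩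
  have hn1 : (1 : ℝ) ≤ (n : ℝ) + 1 := by
    have : (0 : ℝ) ≤ n := Nat.cast_nonneg _
    linarith
  have hLpow : ∀ j, j ≤ 3 * n + 3 → (2 * K) ^ j ≤ L := by
    intro j hj
    rw [hL]
    calc (2 * K) ^ j ≤ (2 * K) ^ (3 * n + 3) := pow_le_pow_right₀ h2K hj
      _ = 1 * (2 * K) ^ (3 * n + 3) := (one_mul _).symm
      _ ≤ _ := mul_le_mul_of_nonneg_right hn1 (by positivity)
  have hL1 : 1 ≤ L := by
    have := hLpow 0 (by omega)
    rwa [pow_zero] at this
  have hL0 : 0 < L := by linarith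
  have hTL : (T.card : ℝ) ≤ L := by
    refine hT.trans ?_
    rw [hL]
    refine mul_le_mul (by linarith) ?_ (by positivity) (by positivity)
    exact (pow_le_pow_left₀ hK0.le (by linarith) n).trans (pow_le_pow_right₀ h2K (by omega))
  have h5L : (5 : ℝ) ^ d ≤ L := (five_pow hK1 hSd).trans (hLpow _ (by omega))
  set A₁ := A.image π with hA₁
  have hA₁ne : A₁.Nonempty := hA.image π
  have hAL : ((A₁ + A₁).card : ℝ) ≤ L * A₁.card := by
    refine (image_doubling π hA hK).trans (mul_le_mul_of_nonneg_right ?_ (Nat.cast_nonneg _))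
    exact (pow_le_pow_left₀ hK0.le (by linarith) 3).trans (hLpow 3 (by omega))
  -- the popular coset
  obtain ⟨t, ht, ht2⟩ := pigeon (T.image π) A₁ A₁ hA₁ne (fun t a => ∃ x, a = t + (π.comp ψ₀) x)
    subset_rfl (by
      intro x hx
      obtain ⟨a, ha, rfl⟩ := Finset.mem_image.1 hx
      obtain ⟨t, ht, h⟩ := hcov a ha
      obtain ⟨p, hp, s, hs, e⟩ := AddSubgroup.mem_sup.1 h
      obtain ⟨y, rfl⟩ := hψ₀ hs
      refine ⟨π t, Finset.mem_image_of_mem _ ht, y, ?_⟩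
      have e1 : a = t + p + ψ₀ y := by
        have e2 : a = t + (a - t) := by abel
        rw [e2, ← e]
        abel
      show π a = π t + π (ψ₀ y)
      rw [e1, map_add, map_add, (hker p).2 hp, add_zero])
  set E := A₁.filter (fun a => ∃ x, a = t + (π.comp ψ₀) x) with hE
  have hEA : E ⊆ A₁ := Finset.filter_subset _ _
  have hEne : E.Nonempty := by
    rw [← Finset.card_pos]
    by_contra hcon
    have h0 : E.card = 0 := by omega
    rw [h0, mul_zero] at ht2
    have := hA₁ne.card_pos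
    omega
  obtain ⟨X, hXne, hXcard, hXE, hXF⟩ := rect3 (π.comp ψ₀) t E hEne
    (fun e he => (Finset.mem_filter.1 he).2) 2
  have hXF2 : ∀ p ∈ X, ∀ q ∈ X, ∀ p' ∈ X, ∀ q' ∈ X,
      (π.comp ψ₀) p + (π.comp ψ₀) q = (π.comp ψ₀) p' + (π.comp ψ₀) q' → p + q = p' + q' := by
    intro p hp q hq p' hp' q' hq' e
    have h1 := hXF ![p, q] ![p', q'] (by
        intro i
        fin_cases i
        · exact hp
        · exact hq) (by
        intro i
        fin_cases i
        · exact hp'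
        · exact hq') (by
        simp only [Fin.sum_univ_two, Matrix.cons_val_zero, Matrix.cons_val_one]
        exact e)
    simpa [Fin.sum_univ_two] using h1
  have hinj : ∀ p ∈ X, ∀ q ∈ X, (π.comp ψ₀) p = (π.comp ψ₀) q → p = q := by
    intro p hp q hq e
    exact add_right_cancel (hXF2 p hp p hp q hq p hp (by rw [e]))
  have hXA : X.card ≤ A₁.card := by
    refine (Finset.card_le_card_of_injOn (fun p => t + (π.comp ψ₀) p) (fun p hp => hXE p hp)
      ?_).trans (Finset.card_le_card hEA)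
    intro p hp q hq e
    exact hinj p hp q hq (add_left_cancel e)
  have hTbar : ((T.image π).card : ℝ) ≤ L :=
    (by exact_mod_cast Finset.card_image_le : ((T.image π).card : ℝ) ≤ T.card).trans hTL
  have hAX : (A₁.card : ℝ) ≤ L ^ 2 * X.card := by
    calc (A₁.card : ℝ) ≤ (((T.image π).card * E.card : ℕ) : ℝ) := by exact_mod_cast ht2
      _ ≤ (((T.image π).card * (5 ^ d * X.card) : ℕ) : ℝ) := by
        exact_mod_cast Nat.mul_le_mul_left _ hXcard
      _ = ((T.image π).card : ℝ) * ((5 : ℝ) ^ d * X.card) := by push_cast; rfl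
      _ ≤ L * (L * X.card) := mul_le_mul hTbar (mul_le_mul_of_nonneg_right h5L (Nat.cast_nonneg _))
          (by positivity) hL0.le
      _ = L ^ 2 * X.card := by ring
  have hXX : ((X + X).card : ℝ) ≤ L ^ 3 * X.card := by
    have h1 : (X + X).card ≤ (A₁ + A₁).card := by
      refine (Finset.card_le_card_of_injOn (t := E + E) (fun v => t + t + (π.comp ψ₀) v) ?_
        ?_).trans (Finset.card_le_card (Finset.add_subset_add hEA hEA))
      · intro v hv
        obtain ⟨p, hp, q, hq, rfl⟩ := Finset.mem_add.1 (Finset.mem_coe.1 hv)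
        refine Finset.mem_coe.2 (Finset.mem_add.2 ⟨t + (π.comp ψ₀) p, hXE p hp,
          t + (π.comp ψ₀) q, hXE q hq, ?_⟩)
        show t + (π.comp ψ₀) p + (t + (π.comp ψ₀) q) = t + t + (π.comp ψ₀) (p + q)
        rw [map_add]
        abel
      · intro v hv v' hv' e
        obtain ⟨p, hp, q, hq, rfl⟩ := Finset.mem_add.1 (Finset.mem_coe.1 hv)
        obtain ⟨p', hp', q', hq', rfl⟩ := Finset.mem_add.1 (Finset.mem_coe.1 hv')
        have e1 := add_left_cancel e
        rw [map_add, map_add] at e1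
        exact hXF2 p hp q hq p' hp' q' hq' e1
    calc ((X + X).card : ℝ) ≤ (A₁ + A₁).card := by exact_mod_cast h1
      _ ≤ L * A₁.card := hAL
      _ ≤ L * (L ^ 2 * X.card) := mul_le_mul_of_nonneg_left hAX hL0.le
      _ = L ^ 3 * X.card := by ring
  -- Q1 for the lattice
  obtain ⟨r, B, φ, H', TX, hr, hB, hH', hvol, hTX, hcovX⟩ := hZ d (L ^ 3) X hXne
    (by convert hXX)
  have hfinB : (lat B).Finite := lat_finite hB.2.1.isBounded
  have hsym : Sym B := ⟨hB.1, hB.2.1, hB.2.2.2, hB.2.2.1.mono interior_subset⟩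
  have hH'0 : ∀ h ∈ H', h = 0 := by
    intro h hh
    have h1 : Nat.card H' • (⟨h, hh⟩ : H') = 0 := card_nsmul_eq_zero'
    have h2 : Nat.card H' • h = 0 := by
      have h3 := congrArg H'.subtype h1
      rw [map_nsmul, map_zero] at h3
      exact h3
    funext i
    have h3 := congrFun h2 i
    rw [Pi.smul_apply, nsmul_eq_mul] at h3
    rcases mul_eq_zero.1 h3 with h4 | h4
    · exact absurd h4 (by exact_mod_cast (Nat.card_pos (α := H')).ne')
    · exact h4
  have hBX : (lat B).ncard ≤ X.card := (Nat.le_mul_of_pos_right _ Nat.card_pos).trans hvol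
  have hL31 : 1 ≤ L ^ 3 := one_le_pow₀ hL1
  have hTX' : (TX.card : ℝ) ≤ k * (L ^ 3) ^ k := hTX.trans (hCK _ hL31)
  -- the covering
  set A₀ := X.image (fun p => t + (π.comp ψ₀) p) with hA₀
  have hA₀card : A₀.card = X.card := by
    refine Finset.card_image_of_injOn ?_
    intro p hp q hq e
    exact hinj p hp q hq (add_left_cancel e)
  have hA₀A : A₀ ⊆ A₁ := by
    intro a ha
    obtain ⟨p, hp, rfl⟩ := Finset.mem_image.1 ha
    exact hEA (hXE p hp)
  obtain ⟨F, hFA, hF, hcovF⟩ := cover (P := A₁) (Q := A₀) (hXne.image _) (K := L ^ 3) (by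
    calc ((A₁ + A₀).card : ℝ) ≤ (A₁ + A₁).card := by
          exact_mod_cast Finset.card_le_card (Finset.add_subset_add_left hA₀A)
      _ ≤ L * A₁.card := hAL
      _ ≤ L * (L ^ 2 * X.card) := mul_le_mul_of_nonneg_left hAX hL0.le
      _ = L ^ 3 * A₀.card := by rw [hA₀card]; ring)
  set T₂ : Finset Γ := (F ×ˢ (TX ×ˢ TX)).image (fun x => σ x.1 + ψ₀ (x.2.1 - x.2.2)) with hT₂
  have hfin2 := hsym.finite 2
  set X₂ := hfin2.toFinset with hX₂
  have hX₂card : X₂.card = num B 2 := (Set.ncard_eq_toFinset_card _ hfin2).symm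
  have hcovA : ∀ a ∈ A, ∃ t ∈ T₂, ∃ x ∈ X₂, ∃ h ∈ H, a = t + (ψ₀.comp φ) x + h := by
    intro a ha
    obtain ⟨x, hx, y, hy, z, hz, e⟩ := hcovF (π a) (Finset.mem_image_of_mem _ ha)
    obtain ⟨p, hp, rfl⟩ := Finset.mem_image.1 hy
    obtain ⟨q, hq, rfl⟩ := Finset.mem_image.1 hz
    obtain ⟨tp, htp, bp, hbp, hp', hhp', ep⟩ := hcovX p hp
    obtain ⟨tq, htq, bq, hbq, hq', hhq', eq⟩ := hcovX q hq
    rw [hH'0 hp' hhp', add_zero] at ep
    rw [hH'0 hq' hhq', add_zero] at eq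
    refine ⟨σ x + ψ₀ (tp - tq), Finset.mem_image.2 ⟨(x, (tp, tq)), Finset.mem_product.2
      ⟨hx, Finset.mem_product.2 ⟨htp, htq⟩⟩, rfl⟩, bp - bq, ?_, a - (σ x + ψ₀ (tp - tq)) -
      (ψ₀.comp φ) (bp - bq), ?_, by abel⟩
    · rw [Set.Finite.mem_toFinset]
      have h1 : bp ∈ lat ((1 : ℝ) • B) := by rw [one_smul]; exact hbp
      have h2 : bq ∈ lat ((1 : ℝ) • B) := by rw [one_smul]; exact hbq
      have h3 := hsym.sub (by norm_num) (by norm_num) h1 h2
      norm_num at h3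
      exact h3
    · rw [← hker, map_sub, map_sub, map_add, hσ, e]
      show x + (t + π (ψ₀ p) - (t + π (ψ₀ q))) - (x + π (ψ₀ (tp - tq))) -
        π (ψ₀ (φ (bp - bq))) = 0
      rw [ep, eq]
      simp only [map_sub, map_add]
      abel
  obtain ⟨g, hg, hg2⟩ := pigeon T₂ A A hA (fun t a => ∃ x ∈ X₂, ∃ h ∈ H,
    a = t + (ψ₀.comp φ) x + h) subset_rfl hcovA
  -- the constant
  obtain ⟨M, hM⟩ : ∃ M : ℝ, M = ((n + 1) * K ^ n) * (2 * L ^ 3) ^ (2 * k) * ((k + 1) ^ 2 *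
    L ^ (6 * k + 3)) := ⟨_, rfl⟩
  have hf1 : 1 ≤ ((n : ℝ) + 1) * K ^ n := by
    have := one_le_pow₀ hK1 (n := n)
    nlinarith
  have hf2 : 1 ≤ (2 * L ^ 3) ^ (2 * k) := one_le_pow₀ (by linarith)
  have hk0 : (0 : ℝ) ≤ k := Nat.cast_nonneg _
  have hf3 : 1 ≤ ((k : ℝ) + 1) ^ 2 * L ^ (6 * k + 3) := by
    have h1 : 1 ≤ L ^ (6 * k + 3) := one_le_pow₀ hL1
    have h2 : 1 ≤ ((k : ℝ) + 1) ^ 2 := one_le_pow₀ (by linarith)
    nlinarith
  have h4r : (4 : ℝ) ^ r ≤ (2 * L ^ 3) ^ (2 * k) :=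
    four_pow hL31 (hr.trans (mul_le_mul_of_nonneg_right hk (Real.log_nonneg (by linarith))))
  have hM1 : ((n : ℝ) + 1) * K ^ n * (2 * L ^ 3) ^ (2 * k) ≤ M := by
    rw [hM]
    exact le_mul_of_one_le_right (by positivity) hf3
  have hM2 : (4 : ℝ) ^ r * (n * K ^ n) ≤ M := by
    calc (4 : ℝ) ^ r * (n * K ^ n) ≤ (2 * L ^ 3) ^ (2 * k) * ((n + 1) * K ^ n) := by
          refine mul_le_mul h4r ?_ (by positivity) (by positivity)
          exact mul_le_mul_of_nonneg_right (by linarith) (by positivity)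
      _ = ((n : ℝ) + 1) * K ^ n * (2 * L ^ 3) ^ (2 * k) := by ring
      _ ≤ M := hM1
  have hM3 : (4 : ℝ) ^ r ≤ M := by
    calc (4 : ℝ) ^ r ≤ (2 * L ^ 3) ^ (2 * k) := h4r
      _ = 1 * (2 * L ^ 3) ^ (2 * k) := (one_mul _).symm
      _ ≤ ((n : ℝ) + 1) * K ^ n * (2 * L ^ 3) ^ (2 * k) :=
        mul_le_mul_of_nonneg_right hf1 (by positivity)
      _ ≤ M := hM1
  have hM4 : ((k : ℝ) + 1) ^ 2 * L ^ (6 * k + 3) ≤ M := by
    rw [hM]
    refine le_mul_of_one_le_left (by positivity) ?_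
    calc (1 : ℝ) = 1 * 1 := by norm_num
      _ ≤ _ := mul_le_mul hf1 hf2 (by norm_num) (by positivity)
  have hM0 : (1 : ℝ) ≤ M := (one_le_pow₀ (by norm_num : (1 : ℝ) ≤ 4)).trans hM3
  have hT₂card : (T₂.card : ℝ) ≤ M := by
    have h1 : T₂.card ≤ F.card * (TX.card * TX.card) := by
      refine Finset.card_image_le.trans ?_
      rw [Finset.card_product, Finset.card_product]
    calc (T₂.card : ℝ) ≤ ((F.card * (TX.card * TX.card) : ℕ) : ℝ) := by exact_mod_cast h1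
      _ = (F.card : ℝ) * ((TX.card : ℝ) * TX.card) := by push_cast; rfl
      _ ≤ L ^ 3 * ((k * (L ^ 3) ^ k) * (k * (L ^ 3) ^ k)) := by
        refine mul_le_mul hF (mul_le_mul hTX' hTX' (Nat.cast_nonneg _) (by positivity))
          (by positivity) (by positivity)
      _ = (k : ℝ) ^ 2 * L ^ (6 * k + 3) := by
        rw [← pow_mul, show 6 * k + 3 = 3 + (3 * k + 3 * k) by ring, pow_add, pow_add]
        ring
      _ ≤ ((k : ℝ) + 1) ^ 2 * L ^ (6 * k + 3) := by
        refine mul_le_mul_of_nonneg_right ?_ (by positivity)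
        nlinarith
      _ ≤ M := hM4
  refine hC' Γ K A hA hK r X₂ (ψ₀.comp φ) H g ?_
  have hMeq : M = (((n + 1) * 2 ^ (2 * k) * (k + 1) ^ 2 *
      ((n + 1) * 2 ^ (3 * n + 3)) ^ (12 * k + 3) : ℕ) : ℝ) *
      K ^ (n + (3 * n + 3) * (12 * k + 3)) := by
    have e1 : L = ((n + 1) * 2 ^ (3 * n + 3)) * K ^ (3 * n + 3) := by
      rw [hL, mul_pow]
      ring
    have e2 : M = ((n + 1) * K ^ n) * 2 ^ (2 * k) * (k + 1) ^ 2 * L ^ (12 * k + 3) := by
      rw [hM, mul_pow 2 (L ^ 3), ← pow_mul L 3, show 12 * k + 3 = 3 * (2 * k) + (6 * k + 3) by ring,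
        pow_add L]
      ring
    rw [e2, e1, mul_pow, ← pow_mul K, pow_add K n]
    push_cast
    ring
  rw [← hMeq]
  refine ⟨?_, hHfin, ?_, ?_, ?_, ?_⟩
  · refine ⟨0, ?_⟩
    rw [hX₂, Set.Finite.mem_toFinset]
    have h1 : re (0 : Fin r → ℤ) = 0 := by funext i; simp [re]
    show re 0 ∈ (2 : ℝ) • B
    rw [h1]
    exact (hsym.smul 2).zero
  · have h1 : (X₂ + X₂).card ≤ num B 4 := by
      rw [num, Set.ncard_eq_toFinset_card _ (hsym.finite 4)]
      refine Finset.card_le_card ?_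
      intro x hx
      obtain ⟨a, ha, b, hb, rfl⟩ := Finset.mem_add.1 hx
      rw [hX₂, Set.Finite.mem_toFinset] at ha hb
      rw [Set.Finite.mem_toFinset]
      have h2 := hsym.add (by norm_num) (by norm_num) ha hb
      norm_num at h2
      exact h2
    have h2 : num B 4 ≤ 4 ^ r * num B 2 := by
      have := num_double hsym (t := 2) (by norm_num)
      norm_num at this
      exact this
    calc ((X₂ + X₂).card : ℝ) ≤ ((4 ^ r * X₂.card : ℕ) : ℝ) := by
          rw [hX₂card]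
          exact_mod_cast h1.trans h2
      _ = (4 : ℝ) ^ r * X₂.card := by push_cast; rfl
      _ ≤ M * X₂.card := mul_le_mul_of_nonneg_right hM3 (Nat.cast_nonneg _)
  · have h1 : hull X₂ ⊆ (X₂ : Set (Fin r → ℤ)) := by
      intro v hv
      rw [Finset.mem_coe, hX₂, Set.Finite.mem_toFinset]
      refine convexHull_min ?_ (hsym.smul 2).conv hv
      rintro _ ⟨x, hx, rfl⟩
      rw [Finset.mem_coe, hX₂, Set.Finite.mem_toFinset] at hx
      exact hx
    have h2 := Set.ncard_le_ncard h1 (Finset.finite_toSet _)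
    rw [Set.ncard_coe_finset] at h2
    calc ((hull X₂).ncard : ℝ) ≤ 1 * X₂.card := by rw [one_mul]; exact_mod_cast h2
      _ ≤ _ := mul_le_mul_of_nonneg_right hM0 (Nat.cast_nonneg _)
  · have h1 : num B 2 ≤ 4 ^ r * (lat B).ncard := by
      have h3 := num_double hsym (t := 1) (by norm_num)
      rw [mul_one] at h3
      have h4 : num B 1 = (lat B).ncard := by rw [num, one_smul]
      rwa [h4] at h3
    have h2 : (((A : Set Γ) + (H : Set Γ)).ncard : ℕ) = Nat.card H * A₁.card := by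
      have h3 := ncard_cosets H (A : Set Γ)
      rw [h3, ← hπ, ← Finset.coe_image, Set.ncard_coe_finset]
    have h3 : X₂.card * Nat.card H ≤ 4 ^ r * (Nat.card H * A₁.card) := by
      rw [hX₂card]
      calc num B 2 * Nat.card H ≤ (4 ^ r * A₁.card) * Nat.card H :=
            Nat.mul_le_mul_right _ (h1.trans (Nat.mul_le_mul_left _ (hBX.trans hXA)))
        _ = _ := by ring
    rw [← h2] at h3
    calc (X₂.card : ℝ) * Nat.card H ≤ ((4 ^ r * ((A : Set Γ) + (H : Set Γ)).ncard : ℕ) : ℝ) := by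
          exact_mod_cast h3
      _ = (4 : ℝ) ^ r * (((A : Set Γ) + (H : Set Γ)).ncard : ℝ) := by push_cast; rfl
      _ ≤ (4 : ℝ) ^ r * (n * K ^ n * A.card) := mul_le_mul_of_nonneg_left hAH (by positivity)
      _ = ((4 : ℝ) ^ r * (n * K ^ n)) * A.card := by ring
      _ ≤ M * A.card := mul_le_mul_of_nonneg_right hM2 (Nat.cast_nonneg _)
  · have h1 : {a : Γ | a ∈ A ∧ ∃ x ∈ X₂, ∃ h ∈ H, a = g + (ψ₀.comp φ) x + h} =
        ((A.filter (fun a => ∃ x ∈ X₂, ∃ h ∈ H, a = g + (ψ₀.comp φ) x + h) : Finset Γ) :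
          Set Γ) := by
      rw [Finset.coe_filter]
    rw [h1, Set.ncard_coe_finset]
    calc (A.card : ℝ) ≤ ((T₂.card * (A.filter (fun a => ∃ x ∈ X₂, ∃ h ∈ H,
          a = g + (ψ₀.comp φ) x + h)).card : ℕ) : ℝ) := by exact_mod_cast hg2
      _ = (T₂.card : ℝ) * (A.filter (fun a => ∃ x ∈ X₂, ∃ h ∈ H,
          a = g + (ψ₀.comp φ) x + h)).card := by push_cast; rfl
      _ ≤ _ := mul_le_mul_of_nonneg_right hT₂card (Nat.cast_nonneg _)

end Pool.Agent.N112.WM
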